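import Pool.Agent.Q269.MF.Odd
import Pool.Agent.Q269.SL.Co
import Pool.Agent.Q269.AV.Gau

/-!
# The law for the odd primes
-/

set_option autoImplicit false
set_option linter.all false

namespace Pool.Agent.Q269.OL

open Finset Filter Topology
open Pool.Agent.Y164.SZ (AS cK card_AS den_eq)
open Pool.Agent.Q269.MF (uo sum_uo bon_up)
open Pool.Agent.Q269.SL (evc Ge Ge_pos shc evc_shc mom_shc)
open Pool.Agent.Q269.AV (cg pow_cg sum_cg_AS mo mo_pos ka AS_zero' AS_succ)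

/-- `1 / ((ℓ - 1) (ℓ ^ 2 - 1) ... (ℓ ^ e - 1))` -/
noncomputable def ce (ℓ e : ℕ) : ℝ := 1 / ∏ i ∈ range e, ((ℓ : ℝ) ^ (i + 1) - 1)

/-- the density -/
noncomputable def al (ℓ : ℕ) : ℝ := ∏' i : ℕ, (1 + ((ℓ : ℝ)⁻¹) ^ (i + 1))⁻¹

/-- the law -/
noncomputable def lw (ℓ e : ℕ) : ℝ := al ℓ * ce ℓ e

section
variable {ℓ : ℕ} (hℓ : 2 ≤ ℓ)

include hℓ in
theorem two_leR : (2 : ℝ) ≤ ℓ := by exact_mod_cast hℓ

include hℓ in
theorem one_le_pm (i : ℕ) : (1 : ℝ) ≤ (ℓ : ℝ) ^ (i + 1) - 1 := by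
  have h2 := two_leR hℓ
  have h : (1 : ℝ) ≤ (ℓ : ℝ) ^ i := one_le_pow₀ (by linarith)
  rw [pow_succ]
  nlinarith

include hℓ in
theorem den_pos (e : ℕ) : (0 : ℝ) < ∏ i ∈ range e, ((ℓ : ℝ) ^ (i + 1) - 1) :=
  prod_pos fun i _ => lt_of_lt_of_le one_pos (one_le_pm hℓ i)

include hℓ in
theorem ce_pos (e : ℕ) : 0 < ce ℓ e := one_div_pos.2 (den_pos hℓ e)

theorem ce_zero : ce ℓ 0 = 1 := by simp [ce]

include hℓ in
theorem ce_succ (e : ℕ) : ce ℓ (e + 1) * ((ℓ : ℝ) ^ (e + 1) - 1) = ce ℓ e := by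
  rw [ce, ce, prod_range_succ]
  have h1 := one_le_pm hℓ e
  have h2 : (0 : ℝ) < (ℓ : ℝ) ^ (e + 1) - 1 := by linarith
  have h3 := den_pos hℓ e
  rw [div_mul_eq_mul_div, one_mul, div_eq_div_iff (by positivity) h3.ne']
  ring

include hℓ in
theorem tend_pow : Tendsto (fun n : ℕ => (ℓ : ℝ) ^ (n + 1) - 1) atTop atTop := by
  have h1 : Tendsto (fun n : ℕ => (ℓ : ℝ) ^ n) atTop atTop :=
    tendsto_pow_atTop_atTop_of_one_lt (by have := two_leR hℓ; linarith)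
  exact tendsto_atTop_add_const_right _ _ (h1.comp (tendsto_add_atTop_nat 1))

include hℓ in
theorem summ {x : ℝ} (h0 : 0 < x) : Summable fun r => ce ℓ r * x ^ r := by
  refine summable_of_ratio_test_tendsto_lt_one (l := 0) one_pos ?_ ?_
  · refine Eventually.of_forall fun n => ?_
    have := ce_pos hℓ n
    positivity
  · have h1 : ∀ n : ℕ, ‖ce ℓ (n + 1) * x ^ (n + 1)‖ / ‖ce ℓ n * x ^ n‖ =
        x / ((ℓ : ℝ) ^ (n + 1) - 1) := by
      intro n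
      have h2 := ce_pos hℓ n
      have h3 := ce_pos hℓ (n + 1)
      have h4 := one_le_pm hℓ n
      have h5 : (0 : ℝ) < (ℓ : ℝ) ^ (n + 1) - 1 := by linarith
      rw [Real.norm_of_nonneg (by positivity), Real.norm_of_nonneg (by positivity),
        div_eq_div_iff (by positivity) h5.ne', ← ce_succ hℓ n, pow_succ]
      ring
    simp only [h1]
    exact (tend_pow hℓ).const_div_atTop x

/-- Euler's series -/
noncomputable def Fe (ℓ : ℕ) (x : ℝ) : ℝ := ∑' r, ce ℓ r * x ^ r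

include hℓ in
theorem Fe_mul {x : ℝ} (h0 : 0 < x) : Fe ℓ (ℓ * x) = (1 + x) * Fe ℓ x := by
  have h2 := two_leR hℓ
  have s1 := summ hℓ h0
  have s2 := summ hℓ (x := ℓ * x) (by positivity)
  have e1 : Fe ℓ (ℓ * x) = 1 + ∑' r, ce ℓ (r + 1) * (ℓ * x) ^ (r + 1) := by
    unfold Fe
    rw [s2.tsum_eq_zero_add]
    simp [ce_zero]
  have e2 : Fe ℓ x = 1 + ∑' r, ce ℓ (r + 1) * x ^ (r + 1) := by
    unfold Fe
    rw [s1.tsum_eq_zero_add]
    simp [ce_zero]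
  have e3 : ∑' r, ce ℓ (r + 1) * (ℓ * x) ^ (r + 1) =
      ∑' r, ce ℓ (r + 1) * x ^ (r + 1) + x * Fe ℓ x := by
    unfold Fe
    rw [← tsum_mul_left, ← Summable.tsum_add ((summable_nat_add_iff 1).2 s1) (s1.mul_left x)]
    refine tsum_congr fun r => ?_
    rw [← ce_succ hℓ r, mul_pow, pow_succ x]
    ring
  rw [e1, e3, ← add_assoc, ← e2]
  ring

include hℓ in
theorem Fe_prod (n : ℕ) : Fe ℓ 1 = (∏ i ∈ range n, (1 + ((ℓ : ℝ)⁻¹) ^ (i + 1))) *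
    Fe ℓ (((ℓ : ℝ)⁻¹) ^ n) := by
  have h2 := two_leR hℓ
  have hl : (0 : ℝ) < ℓ := by linarith
  induction n with
  | zero => simp
  | succ n ih =>
    have h : ((ℓ : ℝ)⁻¹) ^ n = ℓ * ((ℓ : ℝ)⁻¹) ^ (n + 1) := by
      rw [pow_succ]
      field_simp
    rw [ih, h, Fe_mul hℓ (by positivity), Finset.prod_range_succ]
    ring

include hℓ in
theorem Fe_near {x : ℝ} (h0 : 0 < x) (h1 : x ≤ 1) : |Fe ℓ x - 1| ≤ x * (Fe ℓ 1 - 1) := by
  have s1 := summ hℓ h0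
  have s0 := summ hℓ (x := 1) one_pos
  have e2 : Fe ℓ x - 1 = ∑' r, ce ℓ (r + 1) * x ^ (r + 1) := by
    unfold Fe
    rw [s1.tsum_eq_zero_add]
    simp [ce_zero]
  have e3 : Fe ℓ 1 - 1 = ∑' r, ce ℓ (r + 1) * 1 ^ (r + 1) := by
    unfold Fe
    rw [s0.tsum_eq_zero_add]
    simp [ce_zero]
  have s2 := (summable_nat_add_iff 1).2 s1
  have s3 := (summable_nat_add_iff 1).2 s0
  have hn : 0 ≤ ∑' r, ce ℓ (r + 1) * x ^ (r + 1) := tsum_nonneg fun r => by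
    have := ce_pos hℓ (r + 1)
    positivity
  rw [e2, e3, abs_of_nonneg hn, ← tsum_mul_left]
  refine s2.tsum_le_tsum (fun r => ?_) (s3.mul_left x)
  have h3 := ce_pos hℓ (r + 1)
  have h4 : x ^ (r + 1) ≤ x := by
    rw [pow_succ]
    exact mul_le_of_le_one_left h0.le (pow_le_one₀ h0.le h1)
  rw [one_pow]
  nlinarith

include hℓ in
theorem al_spec : Tendsto (cK ℓ) atTop (𝓝 (al ℓ)) ∧ 0 < al ℓ := Pool.Agent.Y515.SZ.t ℓ hℓ

include hℓ in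
theorem al_tendsto : Tendsto (fun n : ℕ => ∏ i ∈ range n, (1 + ((ℓ : ℝ)⁻¹) ^ (i + 1))⁻¹) atTop
    (𝓝 (al ℓ)) := by
  have h2 := two_leR hℓ
  have hl : (0 : ℝ) < ℓ := by linarith
  have hs : Summable fun i : ℕ => ‖(1 + ((ℓ : ℝ)⁻¹) ^ (i + 1))⁻¹ - 1‖ := by
    refine Summable.of_nonneg_of_le (fun i => norm_nonneg _) (fun i => ?_)
      (summable_geometric_of_lt_one (r := (ℓ : ℝ)⁻¹) (by positivity)
        (by rw [inv_lt_one₀ hl]; linarith))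
    have h3 : (0 : ℝ) < ((ℓ : ℝ)⁻¹) ^ (i + 1) := by positivity
    have h4 : ((ℓ : ℝ)⁻¹) ^ (i + 1) ≤ ((ℓ : ℝ)⁻¹) ^ i := by
      rw [pow_succ]
      exact mul_le_of_le_one_right (by positivity) (by rw [inv_le_one₀ hl]; linarith)
    have h5 : (1 + ((ℓ : ℝ)⁻¹) ^ (i + 1))⁻¹ - 1 = -(((ℓ : ℝ)⁻¹) ^ (i + 1) /
        (1 + ((ℓ : ℝ)⁻¹) ^ (i + 1))) := by
      field_simp
      ring
    rw [h5, norm_neg, Real.norm_of_nonneg (by positivity)]
    exact (div_le_self h3.le (by linarith)).trans h4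
  have hm : Multipliable fun i : ℕ => 1 + ((1 + ((ℓ : ℝ)⁻¹) ^ (i + 1))⁻¹ - 1) :=
    multipliable_one_add_of_summable hs
  have h1 := hm.hasProd.tendsto_prod_nat
  simp only [add_sub_cancel] at h1
  exact h1

include hℓ in
/-- the sum of the weights -/
theorem sum_ce : al ℓ * Fe ℓ 1 = 1 := by
  have h2 := two_leR hℓ
  have hl : (0 : ℝ) < ℓ := by linarith
  have hh : Tendsto (fun n : ℕ => ((ℓ : ℝ)⁻¹) ^ n) atTop (𝓝 0) :=
    tendsto_pow_atTop_nhds_zero_of_lt_one (by positivity) (by rw [inv_lt_one₀ hl]; linarith)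
  have hF : Tendsto (fun n : ℕ => Fe ℓ (((ℓ : ℝ)⁻¹) ^ n)) atTop (𝓝 1) := by
    rw [tendsto_iff_norm_sub_tendsto_zero]
    have hg : Tendsto (fun n : ℕ => ((ℓ : ℝ)⁻¹) ^ n * (Fe ℓ 1 - 1)) atTop (𝓝 0) := by
      simpa using hh.mul_const (Fe ℓ 1 - 1)
    refine squeeze_zero (fun n => norm_nonneg _) (fun n => ?_) hg
    exact Fe_near hℓ (x := ((ℓ : ℝ)⁻¹) ^ n) (by positivity)
      (pow_le_one₀ (by positivity) (by rw [inv_le_one₀ hl]; linarith))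
  have h1 := (al_tendsto hℓ).mul_const (Fe ℓ 1)
  have h3 : Tendsto (fun n : ℕ => (∏ i ∈ range n, (1 + ((ℓ : ℝ)⁻¹) ^ (i + 1))⁻¹) * Fe ℓ 1) atTop
      (𝓝 1) := by
    refine hF.congr fun n => ?_
    rw [Fe_prod hℓ n, ← mul_assoc, ← prod_mul_distrib]
    have h4 : ∏ i ∈ range n, (1 + ((ℓ : ℝ)⁻¹) ^ (i + 1))⁻¹ * (1 + ((ℓ : ℝ)⁻¹) ^ (i + 1)) = 1 := by
      apply prod_eq_one
      intro i _
      exact inv_mul_cancel₀ (by positivity)
    rw [h4, one_mul]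
  exact tendsto_nhds_unique h1 h3

include hℓ in
theorem Fe_pow (j : ℕ) : al ℓ * Fe ℓ ((ℓ : ℝ) ^ j) = ∏ i ∈ range j, (1 + (ℓ : ℝ) ^ i) := by
  have h2 := two_leR hℓ
  induction j with
  | zero => simpa using sum_ce hℓ
  | succ j ih =>
    rw [prod_range_succ, ← ih, pow_succ, mul_comm ((ℓ : ℝ) ^ j) (ℓ : ℝ), Fe_mul hℓ (by positivity)]
    ring

include hℓ in
/-- **the moments of the law** -/
theorem hasSum_mom (j : ℕ) :
    HasSum (fun e => lw ℓ e * ((ℓ : ℝ) ^ e) ^ j) (∏ i ∈ range j, (1 + (ℓ : ℝ) ^ i)) := by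
  have h2 := two_leR hℓ
  rw [← Fe_pow hℓ j]
  have h1 := (summ hℓ (x := (ℓ : ℝ) ^ j) (by positivity)).hasSum.mul_left (al ℓ)
  refine h1.congr_fun ?_ |> id
  intro e
  rw [lw, ← pow_mul, ← pow_mul, mul_comm j e, mul_assoc]

include hℓ in
theorem lw_pos (e : ℕ) : 0 < lw ℓ e := mul_pos (al_spec hℓ).2 (ce_pos hℓ e)

include hℓ in
theorem hasSum_lw : HasSum (lw ℓ) 1 := by
  have h := hasSum_mom hℓ 0
  simpa using h

end

end Pool.Agent.Q269.OL
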