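import Pool.Agent.Q269.OL.Selb
import Pool.Agent.Y164.SZ.Imp

/-!
# The bound for the rational points and the Tate-Shafarevich group by the order of the kernel
-/

set_option autoImplicit false
set_option linter.all false

open Polynomial IsDedekindDomain
open scoped Classical

namespace Pool.Agent.Q269.OL

open Finset
open Pool.Agent.Y164.SZ
open Pool.Agent.Y713.SE (tDat clm crE_root crE_of pc pc_nat)
open Pool.Agent.Y713.SE.Dat (au)
open Pool.Agent.Y713.Jac (J Cochain IsCocycle IsLocallyTrivial IsCoboundary mapJ CoordRing)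
open Pool.Agent.Y164.PS (Fam)
open Pool.Agent.Y164.HG (cur)

/-- the homomorphism `y ↦ ζ y` -/
noncomputable def rotate (ℓ : ℕ) {K : Type} [Field K] (F : K[X]) {ζ : K} (hζ : ζ ^ ℓ = 1)
    (L : Type) [Field L] [Algebra K L] : CoordRing ℓ F L →+* CoordRing ℓ F L :=
  AdjoinRoot.lift (AdjoinRoot.of _)
    (AdjoinRoot.of _ (C (algebraMap K L ζ)) * AdjoinRoot.root _) (by
    have h := AdjoinRoot.eval₂_root (X ^ ℓ - C (F.map (algebraMap K L)) : L[X][X])
    rw [eval₂_sub, eval₂_pow, eval₂_X, eval₂_C] at h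
    rw [eval₂_sub, eval₂_pow, eval₂_X, eval₂_C, mul_pow, ← map_pow, ← C_pow, ← map_pow, hζ,
      map_one, C_1, map_one, one_mul]
    exact h)

/-- the endomorphism `1 - ζ` of `J(L)` -/
noncomputable def phiJ (ℓ : ℕ) {K : Type} [Field K] (F : K[X]) {ζ : K} (hζ : ζ ^ ℓ = 1)
    {L : Type} [Field L] [Algebra K L] (x : J ℓ F L) : J ℓ F L :=
  x / CommRing.Pic.mapRingHom (rotate ℓ F hζ L) x

/-- the number of the points modulo `J[1 - ζ] + (1 - ζ) J` times the number of the classes killed by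
`1 - ζ` is at most `M` -/
def BoundedPhi (ℓ : ℕ) {K : Type} [Field K] (F : K[X]) {ζ : K} (hζ : ζ ^ ℓ = 1) (R : Type)
    [CommRing R] [IsDedekindDomain R] [Algebra R K] [IsFractionRing R K] (M : ℕ) : Prop :=
  ∀ (A B : ℕ) (x : Fin A → J ℓ F K) (c : Fin B → Cochain ℓ F),
    (∀ i j, i ≠ j → ¬ ∃ T y : J ℓ F K, phiJ ℓ F hζ T = 1 ∧ x i = x j * T * phiJ ℓ F hζ y) →
    (∀ j, IsCocycle ℓ F (c j)) → (∀ j, IsLocallyTrivial ℓ F R (c j)) →
    (∀ j, IsCoboundary ℓ F (fun σ => phiJ ℓ F hζ (c j σ))) →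
    (∀ i j, i ≠ j → ¬ IsCoboundary ℓ F (fun σ => c i σ / c j σ)) → A * B ≤ M

theorem BoundedPhi.mono {ℓ : ℕ} {K : Type} [Field K] {F : K[X]} {ζ : K} {hζ : ζ ^ ℓ = 1}
    {R : Type} [CommRing R] [IsDedekindDomain R] [Algebra R K] [IsFractionRing R K] {M M' : ℕ}
    (h : BoundedPhi ℓ F hζ R M) (hM : M ≤ M') : BoundedPhi ℓ F hζ R M' :=
  fun A B x c h1 h2 h3 h4 h5 => (h A B x c h1 h2 h3 h4 h5).trans hM

section transport
variable {ℓ n : ℕ} {K : Type} [Field K] (D : Pool.Agent.Y713.SE.Dat ℓ n K)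

theorem zeta_pow : D.ζ ^ ℓ = 1 := D.hζ.pow_eq_one

theorem cE_rot (L : Type) [Field L] [Algebra K L] :
    ((D.cE L : (D.base L).A →+* CoordRing ℓ D.f L)).comp
      ((D.base L).s 1 : (D.base L).A →+* (D.base L).A) =
      (rotate ℓ D.f (zeta_pow D) L).comp (D.cE L : (D.base L).A →+* CoordRing ℓ D.f L) := by
  have e1 : D.cE L (D.base L).y = AdjoinRoot.root _ := crE_root _
  have e2 : ∀ g, D.cE L (algebraMap L[X] (D.base L).A g) = AdjoinRoot.of _ g :=
    fun g => crE_of _ _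
  have key : ∀ a, D.cE L ((D.base L).s 1 a) = rotate ℓ D.f (zeta_pow D) L (D.cE L a) := by
    intro a
    have h1 : D.cE L ((D.base L).s 1 (D.base L).y) =
        rotate ℓ D.f (zeta_pow D) L (D.cE L (D.base L).y) := by
      rw [(D.base L).s_y, map_mul, e1, e2, pow_one]
      unfold rotate
      rw [AdjoinRoot.lift_root]
      rfl
    have h2 : ∀ g : L[X], D.cE L ((D.base L).s 1 (algebraMap L[X] (D.base L).A g)) =
        rotate ℓ D.f (zeta_pow D) L (D.cE L (algebraMap L[X] (D.base L).A g)) := by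
      intro g
      rw [AlgEquiv.commutes, e2]
      unfold rotate
      rw [AdjoinRoot.lift_of]
    rw [← (D.base L).sum_c a]
    simp only [map_sum, Algebra.smul_def, map_mul, map_pow, h1, h2]
  exact RingHom.ext key

theorem Te_sC (L : Type) [Field L] [Algebra K L] (c : ClassGroup (D.base L).A) :
    D.Te L ((D.base L).sC c) =
      CommRing.Pic.mapRingHom (rotate ℓ D.f (zeta_pow D) L) (D.Te L c) := by
  show CommRing.Pic.mapRingHom (D.cE L : (D.base L).A →+* CoordRing ℓ D.f L)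
    (pc (clm ((D.base L).s 1 : (D.base L).A →+* (D.base L).A) ((D.base L).s 1).injective c)) =
      CommRing.Pic.mapRingHom (rotate ℓ D.f (zeta_pow D) L)
      (CommRing.Pic.mapRingHom (D.cE L : (D.base L).A →+* CoordRing ℓ D.f L) (pc c))
  rw [pc_nat, CommRing.Pic.mapRingHom_mapRingHom, CommRing.Pic.mapRingHom_mapRingHom, cE_rot D]

theorem Te_phi (L : Type) [Field L] [Algebra K L] (c : ClassGroup (D.base L).A) :
    D.Te L ((D.base L).phi c) = phiJ ℓ D.f (zeta_pow D) (D.Te L c) := by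
  rw [Pool.Agent.Y713.SE.Dat.phi_apply, _root_.map_div, Te_sC]
  rfl

theorem Te_symm_phi (L : Type) [Field L] [Algebra K L] (x : J ℓ D.f L) :
    (D.Te L).symm (phiJ ℓ D.f (zeta_pow D) x) = (D.base L).phi ((D.Te L).symm x) := by
  apply (D.Te L).injective
  rw [MulEquiv.apply_symm_apply, Te_phi, MulEquiv.apply_symm_apply]

theorem phi_PT (m : Fin n → ℕ) : D.phi (Pool.Agent.Y713.SE.cl (D.PT m)) = 1 := by
  rw [Pool.Agent.Y713.SE.Dat.phi_apply, div_eq_one, D.sC_cl (D.PT_ne m), D.sI_PT]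

/-- transport -/
theorem bounded_of {R : Type} [CommRing R] [IsDedekindDomain R]
    [Algebra R K] [IsFractionRing R K] {p : ℕ} [ExpChar (SeparableClosure K) p] {M : ℕ}
    (pig : ∀ (I : Type) [Fintype I] (χ : I → (Pool.Agent.Y713.Jac.Gal K) → Fin n → ℕ),
      (∀ i, D.Coc (fun σ => Pool.Agent.Y713.SE.cl ((D.base (SeparableClosure K)).PT (χ i σ)))) →
      (∀ i, ∀ v : HeightOneSpectrum R, D.Triv (v.adicCompletion K)
        (SeparableClosure (v.adicCompletion K))
        (fun σ => Pool.Agent.Y713.SE.cl ((D.base (SeparableClosure K)).PT (χ i σ)))) →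
        M < Fintype.card I →
      ∃ i j, i ≠ j ∧ ∃ (m : Fin n → ℕ) (Q : ClassGroup (D.base (SeparableClosure K)).A),
        Pool.Agent.Y713.SE.cl ((D.base (SeparableClosure K)).PT m) *
          (D.base (SeparableClosure K)).sC Q = Q ∧
        ∀ σ, Pool.Agent.Y713.SE.cl ((D.base (SeparableClosure K)).PT (χ i σ)) /
          Pool.Agent.Y713.SE.cl ((D.base (SeparableClosure K)).PT (χ j σ)) =
            D.mC (au σ) Q / Q) :
    BoundedPhi ℓ D.f (zeta_pow D) R M := by
  intro A B x c hx hc1 hc2 hc3 hc4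
  have h := sel_bound D (E := SeparableClosure K) (p := p)
    (LT := fun c => ∀ v : HeightOneSpectrum R, D.Triv (v.adicCompletion K)
      (SeparableClosure (v.adicCompletion K)) c)
    (fun c Q h v => (h v).div D Q) pig (A := Fin A) (B := Fin B)
    (fun i => (D.Te K).symm (x i)) ?_
    (fun j σ => (D.Te (SeparableClosure K)).symm (c j σ)) ?_ ?_ ?_ ?_
  · rwa [Fintype.card_fin, Fintype.card_fin] at h
  · rintro i j hij ⟨m, y, hy⟩
    apply hx i j hij
    refine ⟨D.Te K (Pool.Agent.Y713.SE.cl ((D.base K).PT m)), D.Te K y, ?_, ?_⟩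
    · rw [← Te_phi, phi_PT, map_one]
    · have h1 := congrArg (D.Te K) hy
      rw [MulEquiv.apply_symm_apply, map_mul, map_mul, MulEquiv.apply_symm_apply, Te_phi] at h1
      exact h1
  · intro j
    refine ⟨(hc1 j).1.comp _, fun σ τ => ?_⟩
    show (D.Te (SeparableClosure K)).symm (c j (σ * τ)) = _
    rw [(hc1 j).2, map_mul, D.Te_symm_nat]
  · intro j v
    obtain ⟨ι, P, h⟩ := hc2 j v
    refine ⟨ι, (D.Te _).symm P, fun τ σ hτσ => ?_⟩
    have h1 := congrArg (D.Te _).symm (h τ σ hτσ)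
    rw [D.Te_symm_nat, _root_.map_div, D.Te_symm_nat] at h1
    exact h1
  · intro j
    obtain ⟨Q, hQ⟩ := hc3 j
    refine ⟨(D.Te _).symm Q, fun σ => ?_⟩
    have h1 := congrArg (D.Te _).symm (hQ σ)
    rw [Te_symm_phi, _root_.map_div, D.Te_symm_nat] at h1
    exact h1
  · rintro i j hij ⟨Q, hQ⟩
    apply hc4 i j hij
    refine ⟨D.Te _ Q, fun σ => ?_⟩
    apply (D.Te _).symm.injective
    rw [_root_.map_div, _root_.map_div, D.Te_symm_nat, MulEquiv.symm_apply_apply]
    exact hQ σ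

end transport

/-- a root of unity of the constant field -/
theorem zK {ℓ : ℕ} {k : Type} [Field k] {ζ : k} (hζ : ζ ^ ℓ = 1) (K : Type) [Field K]
    [Algebra k[X] K] : (algebraMap k[X] K (C ζ)) ^ ℓ = 1 := by
  rw [← map_pow, ← C_pow, hζ, C_1, map_one]

section
variable {ℓ : ℕ} [hℓ : Fact ℓ.Prime]
variable {k K : Type} [Field k] [Fintype k] [DecidableEq k] [Field K] [Algebra k[X] K]
  [IsFractionRing k[X] K]
variable {n : ℕ} {a : Fin n → k[X]} {N : ℕ} (H : Geo ℓ a N)

include H in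
theorem imp_bound (hREP : S_REP) (hADJ : S_ADJ) (hKDA : S_KDA)
    (hE1 : S_E1) (hE2 : S_E2) {ζ : k}
    (hζ : IsPrimitiveRoot ζ ℓ) (hζ' : ζ ^ ℓ = 1) (σ : Tau a → ZMod ℓ) (ι : Type) [Fintype ι]
    (T : ι → k[X])
    (hR : Fam (Sum.elim T (QQ a))) (hcl : cl (H.dat σ) (QQ a) T)
    (hpar : IsUnit (∑ i, ((T i).natDegree : ZMod ℓ) + (H.dat σ).N)) :
    BoundedPhi ℓ (cur K a (∏ i, T i)) (zK hζ' K) k[X]
      (Nat.card (KerP (H.dat σ) (AT ℓ T) (BT ℓ (QQ a) T)
        (fun i => ((T i).natDegree : ZMod ℓ)))) := by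
  have hinj : Function.Injective (algebraMap k[X] K) := IsFractionRing.injective k[X] K
  have hT0 : (∏ i, T i) ≠ 0 := prod_ne_zero_iff.2 fun i _ => (hR.irr (Sum.inl i)).ne_zero
  have hδ : algebraMap k[X] K (∏ i, T i) ≠ 0 := (map_ne_zero_iff _ hinj).2 hT0
  have he : Function.Injective (fun i => algebraMap k[X] K (a i)) := by
    intro i j hij
    by_contra hne
    exact H.ne hne (sub_eq_zero.2 (hinj hij))
  obtain ⟨D0, hD⟩ : ∃ D0 : Pool.Agent.Y713.SE.Dat ℓ n K,
      D0 = tDat K hℓ.out H.hlk hζ hδ he H.hn := ⟨_, rfl⟩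
  have hDδ : D0.δ = algebraMap k[X] K (∏ i, T i) := by rw [hD]; rfl
  have hDe : ∀ i, D0.e i = algebraMap k[X] K (a i) := fun i => by rw [hD]; rfl
  have hDζ : D0.ζ = algebraMap k[X] K (C ζ) := by rw [hD]; rfl
  have hf : D0.f = cur K a (∏ i, T i) := by
    rw [Pool.Agent.Y713.SE.Dat.f, hDδ, cur]
    simp only [hDe]
  obtain ⟨p, hexp⟩ := ExpChar.exists K
  haveI := hexp
  haveI : ExpChar (SeparableClosure K) p :=
    expChar_of_injective_algebraMap (algebraMap K (SeparableClosure K)).injective p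
  haveI : ∀ v : HeightOneSpectrum k[X], ExpChar (SeparableClosure (v.adicCompletion K)) p := fun v =>
    expChar_of_injective_algebraMap
      (algebraMap K (SeparableClosure (v.adicCompletion K))).injective p
  have key : BoundedPhi ℓ D0.f (zeta_pow D0) k[X]
      (Nat.card (KerP (H.dat σ) (AT ℓ T) (BT ℓ (QQ a) T)
        (fun i => ((T i).natDegree : ZMod ℓ)))) := by
    apply bounded_of D0 (p := p)
    intro I _ χ hc ht hM
    exact crit_pig (K := K) H hREP hADJ hKDA hE1 hE2 hR D0 hDδ hDe σ hcl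
      hpar (E := SeparableClosure K) (p := p)
      (fun v : HeightOneSpectrum k[X] => SeparableClosure (v.adicCompletion K)) χ hc ht hM
  have hgen : ∀ (F F' : K[X]) (z z' : K) (hz : z ^ ℓ = 1) (hz' : z' ^ ℓ = 1) (M : ℕ), F = F' →
      z = z' → BoundedPhi ℓ F hz k[X] M → BoundedPhi ℓ F' hz' k[X] M := by
    intro F F' z z' hz hz' M h1 h2 h
    subst h1
    subst h2
    exact h
  exact hgen _ _ _ _ _ _ _ hf hDζ key

end

end Pool.Agent.Q269.OL
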