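import Pool.Agent.Q269.OL.Num

/-!
# Functions of the dimensions of the kernels and the numbers of independent tuples
-/

set_option autoImplicit false
set_option linter.all false

namespace Pool.Agent.Q269.OL

open Finset Filter Topology
open Pool.Agent.Y164.SZ (AS cK card_AS den_eq)
open Pool.Agent.Q269.MF (uo sum_uo bon_up)
open Pool.Agent.Q269.SL (evc Ge Ge_pos shc evc_shc mom_shc)
open Pool.Agent.Q269.AV (cg cg_big pow_cg sum_cg_AS mo mo_pos ka AS_zero' AS_succ)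

section one
variable {ℓ : ℕ} [hp : Fact ℓ.Prime]

theorem AS_add (h2 : ℓ ≠ 2) (e j : ℕ) : ((AS ℓ (e + j)).card : ℝ) =
    ((AS ℓ e).card : ℝ) * ((AS ℓ j).card : ℝ) * (ℓ : ℝ) ^ (e * j) := by
  rw [card_AS ℓ h2, card_AS ℓ h2, card_AS ℓ h2]
  push_cast
  rw [← pow_add, ← pow_add]
  congr 1
  have h1 : ∀ m : ℕ, m * (m - 1) = 2 * (m * (m - 1) / 2) := fun m => by
    have := Nat.even_mul_pred_self m
    obtain ⟨r, hr⟩ := this
    omega
  have h3 := h1 (e + j)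
  have h4 := h1 e
  have h5 := h1 j
  have h6 : (e + j) * (e + j - 1) = e * (e - 1) + j * (j - 1) + 2 * (e * j) := by
    rcases e with _ | e
    · simp
    · rcases j with _ | j
      · simp
      · simp only [Nat.add_sub_cancel]
        have : e + 1 + (j + 1) - 1 = e + j + 1 := by omega
        rw [this]
        ring
  rw [h6] at h3 ⊢
  omega

theorem AS_div (h2 : ℓ ≠ 2) (e : ℕ) : ((AS ℓ e).card : ℝ) / Ge ℓ e = ce ℓ e := by
  have hl : (0 : ℝ) < ℓ := by exact_mod_cast hp.out.pos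
  rw [card_AS ℓ h2, Ge, den_eq, ce]
  push_cast
  have h3 := den_pos hp.out.two_le e
  have h4 : (0 : ℝ) < (ℓ : ℝ) ^ (e * (e - 1) / 2) := by positivity
  field_simp

theorem evc_uo {K : ℕ} (hK : Even K) (r : ℕ) :
    (if r = 0 then (1 : ℝ) else 0) ≤ evc ℓ K (uo ℓ) r := by
  have hl : (1 : ℝ) < ℓ := by exact_mod_cast hp.out.one_lt
  refine (bon_up hl hK r).trans (le_of_eq ?_)
  rw [evc]
  refine sum_congr rfl fun j _ => ?_
  rw [uo]
  ring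

/-- the upper bound for the indicator function of a value -/
theorem ind_up (h2 : ℓ ≠ 2) (e : ℕ) {ε : ℝ} (hε : 0 < ε) :
    ∃ K0 : ℕ, ∀ K' : ℕ, K0 ≤ K' → ∃ v : ℕ → ℝ,
      (∀ r, (if r = e then (1 : ℝ) else 0) ≤ evc ℓ K' v r) ∧
      0 ≤ ∑ n ∈ range (K' + 1), v n * ((AS ℓ n).card : ℝ) ∧
      ∑ n ∈ range (K' + 1), v n * ((AS ℓ n).card : ℝ) ≤ lw ℓ e + ε := by
  have hℓ := hp.out.two_le
  have hl1 : (1 : ℝ) < ℓ := by exact_mod_cast hp.out.one_lt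
  obtain ⟨h3, h4⟩ := al_spec hℓ
  have h5 : Tendsto (fun K => ce ℓ e * cK ℓ K) atTop (𝓝 (lw ℓ e)) := by
    rw [lw, mul_comm]
    exact h3.const_mul _
  have h6 : ∀ᶠ K in atTop, ce ℓ e * cK ℓ K ≤ lw ℓ e + ε :=
    h5.eventually_le_const (by linarith)
  have h7 : ∀ᶠ K in atTop, 0 ≤ cK ℓ K := h3.eventually_const_le h4
  obtain ⟨K0, hK0⟩ := eventually_atTop.1 (h6.and h7)
  refine ⟨2 * K0 + e, fun K' hK' => ?_⟩
  obtain ⟨K, hK, hKe, hKK⟩ : ∃ K : ℕ, K0 ≤ K ∧ Even K ∧ K + e ≤ K' :=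
    ⟨2 * K0, by omega, even_two_mul _, by omega⟩
  obtain ⟨h8, h9⟩ := hK0 K hK
  have h10 : ∑ n ∈ range (K' + 1), shc ℓ K e (uo ℓ) n * ((AS ℓ n).card : ℝ) = ce ℓ e * cK ℓ K := by
    rw [mom_shc hℓ K e (uo ℓ) (fun n => ((AS ℓ n).card : ℝ)) hKK (fun j => AS_add h2 e j),
      AS_div h2, sum_uo h2]
  refine ⟨shc ℓ K e (uo ℓ), fun r => ?_, ?_, ?_⟩
  · rw [evc_shc hℓ K e _ hKK]
    by_cases h1 : r < e
    · rw [if_pos h1, if_neg (by omega)]
    · rw [if_neg h1]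
      have h11 := evc_uo (ℓ := ℓ) hKe (r - e)
      by_cases h12 : r = e
      · rw [h12, Nat.sub_self] at h11 ⊢
        rw [if_pos rfl] at h11 ⊢
        have h13 : (∏ i ∈ range e, ((ℓ : ℝ) ^ e - (ℓ : ℝ) ^ i)) / Ge ℓ e = 1 :=
          div_self (Ge_pos hℓ e).ne'
        rw [h13, one_mul]
        exact h11
      · rw [if_neg h12]
        rw [if_neg (by omega)] at h11
        apply mul_nonneg _ h11
        apply div_nonneg _ (Ge_pos hℓ e).le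
        apply prod_nonneg
        intro i hi
        rw [sub_nonneg]
        apply pow_le_pow_right₀ hl1.le
        have := mem_range.1 hi
        omega
  · rw [h10]
    exact mul_nonneg (ce_pos hℓ e).le h9
  · rw [h10]
    exact h8

theorem evc_pow {K c : ℕ} (h : c ≤ K) (r : ℕ) : evc ℓ K (cg ℓ c) r = ((ℓ : ℝ) ^ r) ^ c := by
  rw [evc, pow_cg (ℓ : ℝ) _ c]
  symm
  apply sum_subset
  · intro j hj
    rw [mem_range] at hj ⊢
    omega
  · intro j _ hj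
    rw [mem_range, not_lt] at hj
    rw [cg_big _ _ _ (by omega), zero_mul]

end one

section many
variable {R : Type} [Fintype R] [DecidableEq R]

/-- products of summable functions -/
theorem hasSum_pi {g : R → ℕ → ℝ} {s : R → ℝ} (hg : ∀ r n, 0 ≤ g r n)
    (hs : ∀ r, HasSum (g r) (s r)) : HasSum (fun e : R → ℕ => ∏ r, g r (e r)) (∏ r, s r) := by
  have hbox : ∀ T : ℕ, ∑ e ∈ Fintype.piFinset (fun _ : R => range T), ∏ r, g r (e r) =
      ∏ r, ∑ n ∈ range T, g r n := fun T => (Finset.prod_univ_sum _ _).symm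
  have hle : ∀ T : ℕ, ∏ r, ∑ n ∈ range T, g r n ≤ ∏ r, s r := fun T =>
    prod_le_prod (fun r _ => sum_nonneg fun n _ => hg r n)
      fun r _ => sum_le_hasSum _ (fun n _ => hg r n) (hs r)
  have hcof : ∀ u : Finset (R → ℕ), ∃ T : ℕ, u ⊆ Fintype.piFinset (fun _ : R => range T) := by
    intro u
    refine ⟨(∑ e ∈ u, ∑ r, e r) + 1, fun e he => ?_⟩
    rw [Fintype.mem_piFinset]
    intro r
    rw [mem_range]
    have h1 : e r ≤ ∑ r, e r := single_le_sum (f := e) (fun _ _ => Nat.zero_le _) (mem_univ r)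
    have h2 : ∑ r, e r ≤ ∑ e ∈ u, ∑ r, e r :=
      single_le_sum (f := fun e : R → ℕ => ∑ r, e r) (fun _ _ => Nat.zero_le _) he
    omega
  have hsum : Summable (fun e : R → ℕ => ∏ r, g r (e r)) := by
    refine summable_of_sum_le (c := ∏ r, s r) (fun e => prod_nonneg fun r _ => hg r _) ?_
    intro u
    obtain ⟨T, hT⟩ := hcof u
    refine (sum_le_sum_of_subset_of_nonneg hT fun e _ _ => prod_nonneg fun r _ => hg r _).trans ?_
    rw [hbox]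
    exact hle T
  have h1 : Tendsto (fun T : ℕ => Fintype.piFinset (fun _ : R => range T)) atTop atTop := by
    apply tendsto_atTop_finset_of_monotone
    · intro T T' h e he
      rw [Fintype.mem_piFinset] at he ⊢
      intro r
      have := mem_range.1 (he r)
      exact mem_range.2 (by omega)
    · intro e
      obtain ⟨T, hT⟩ := hcof {e}
      exact ⟨T, hT (mem_singleton_self e)⟩
  have h2 := hsum.hasSum.comp h1
  have h3 : Tendsto (fun T : ℕ => ∏ r, ∑ n ∈ range T, g r n) atTop (𝓝 (∏ r, s r)) :=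
    tendsto_finsetProd _ fun r _ => (hs r).tendsto_sum_nat
  have h4 : ∑' e : R → ℕ, ∏ r, g r (e r) = ∏ r, s r := by
    refine tendsto_nhds_unique (h2.congr fun T => ?_) h3
    exact hbox T
  rw [← h4]
  exact hsum.hasSum

variable {ℓ : ℕ} [hp : Fact ℓ.Prime]

/-- the mean value -/
noncomputable def Ex (ℓ : ℕ) (f : (R → ℕ) → ℝ) : ℝ := ∑' e : R → ℕ, f e * ∏ r, lw ℓ (e r)

theorem hasSum_prod_mom (c : R → ℕ) :
    HasSum (fun e : R → ℕ => (∏ r, ((ℓ : ℝ) ^ e r) ^ c r) * ∏ r, lw ℓ (e r))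
      (∏ r, ∏ i ∈ range (c r), (1 + (ℓ : ℝ) ^ i)) := by
  have hℓ := hp.out.two_le
  have hl : (0 : ℝ) < ℓ := by exact_mod_cast hp.out.pos
  have h1 := hasSum_pi (g := fun r n => lw ℓ n * ((ℓ : ℝ) ^ n) ^ c r)
    (fun r n => mul_nonneg (lw_pos hℓ n).le (by positivity)) (fun r => hasSum_mom hℓ (c r))
  have h2 : (fun e : R → ℕ => (∏ r, ((ℓ : ℝ) ^ e r) ^ c r) * ∏ r, lw ℓ (e r)) =
      fun e : R → ℕ => ∏ r, (lw ℓ (e r) * ((ℓ : ℝ) ^ e r) ^ c r) := by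
    funext e
    rw [← prod_mul_distrib]
    exact prod_congr rfl fun r _ => mul_comm _ _
  rw [h2]
  exact h1

theorem summ_f {f : (R → ℕ) → ℝ} (hf0 : ∀ e, 0 ≤ f e) {C0 : ℝ} {c : ℕ}
    (hf : ∀ e, f e ≤ C0 * ∏ r, ((ℓ : ℝ) ^ e r) ^ c) :
    Summable (fun e : R → ℕ => f e * ∏ r, lw ℓ (e r)) := by
  have hℓ := hp.out.two_le
  have h1 := (hasSum_prod_mom (ℓ := ℓ) (fun _ : R => c)).summable.mul_left C0
  refine Summable.of_nonneg_of_le (fun e => ?_) (fun e => ?_) h1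
  · exact mul_nonneg (hf0 e) (prod_nonneg fun r _ => (lw_pos hℓ _).le)
  · rw [← mul_assoc]
    exact mul_le_mul_of_nonneg_right (hf e) (prod_nonneg fun r _ => (lw_pos hℓ _).le)

/-- **the coefficients** -/
theorem coeffs (h2 : ℓ ≠ 2) {f : (R → ℕ) → ℝ} (hf0 : ∀ e, 0 ≤ f e) {C0 : ℝ} {c : ℕ}
    (hf : ∀ e, f e ≤ C0 * ∏ r, ((ℓ : ℝ) ^ e r) ^ c) {ε : ℝ} (hε : 0 < ε) :
    ∃ (K : ℕ) (I : Type) (_ : Fintype I) (α : I → ℝ) (v : I → R → ℕ → ℝ),
      (∀ e, f e ≤ ∑ i, α i * ∏ r, evc ℓ K (v i r) (e r)) ∧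
      ∑ i, α i * ∏ r, ∑ n ∈ range (K + 1), v i r n * ((AS ℓ n).card : ℝ) ≤ Ex ℓ f + ε := by
  have hℓ := hp.out.two_le
  have hl : (0 : ℝ) < ℓ := by exact_mod_cast hp.out.pos
  have hl1 : (1 : ℝ) < ℓ := by exact_mod_cast hp.out.one_lt
  have hC0 : 0 ≤ C0 := by
    have h3 := (hf0 (fun _ => 0)).trans (hf (fun _ => 0))
    simpa using h3
  have hs := summ_f (ℓ := ℓ) hf0 hf
  obtain ⟨M, hM⟩ : ∃ M : ℝ, M = ∏ _r : R, mo ℓ (c + 1) := ⟨_, rfl⟩
  have hM0 : 0 ≤ M := by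
    rw [hM]
    exact prod_nonneg fun r _ => (mo_pos ℓ _).le
  -- the box
  obtain ⟨T, hT⟩ : ∃ T : ℕ, C0 * ((ℓ : ℝ)⁻¹) ^ (T + 1) * M ≤ ε / 2 := by
    have h3 : Tendsto (fun T : ℕ => C0 * ((ℓ : ℝ)⁻¹) ^ (T + 1) * M) atTop (𝓝 (C0 * 0 * M)) := by
      apply Tendsto.mul_const
      apply Tendsto.const_mul
      exact (tendsto_pow_atTop_nhds_zero_of_lt_one (by positivity)
        (inv_lt_one_of_one_lt₀ hl1)).comp (tendsto_add_atTop_nat 1)
    rw [mul_zero, zero_mul] at h3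
    obtain ⟨T, hT⟩ := (h3.eventually_le_const (half_pos hε)).exists
    exact ⟨T, hT⟩
  obtain ⟨bx, hbx⟩ : ∃ bx : Finset (R → ℕ), bx = Fintype.piFinset (fun _ : R => range (T + 1)) :=
    ⟨_, rfl⟩
  have hmem : ∀ e ∈ bx, ∀ r, e r < T + 1 := by
    intro e he r
    rw [hbx, Fintype.mem_piFinset] at he
    exact mem_range.1 (he r)
  -- the error
  obtain ⟨δ, hδ, hδ2⟩ : ∃ δ : ℝ, 0 < δ ∧
      ∑ e ∈ bx, f e * ∏ r, (lw ℓ (e r) + δ) ≤ ∑ e ∈ bx, f e * ∏ r, lw ℓ (e r) + ε / 2 := by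
    have h3 : Tendsto (fun δ : ℝ => ∑ e ∈ bx, f e * ∏ r, (lw ℓ (e r) + δ)) (𝓝 0)
        (𝓝 (∑ e ∈ bx, f e * ∏ r, (lw ℓ (e r) + 0))) := by
      apply Continuous.tendsto
      fun_prop
    simp only [add_zero] at h3
    have h4 := h3.eventually_le_const
      (show ∑ e ∈ bx, f e * ∏ r, lw ℓ (e r) < ∑ e ∈ bx, f e * ∏ r, lw ℓ (e r) + ε / 2 by linarith)
    have h5 : ∀ᶠ δ : ℝ in 𝓝[>] 0, ∑ e ∈ bx, f e * ∏ r, (lw ℓ (e r) + δ) ≤
        ∑ e ∈ bx, f e * ∏ r, lw ℓ (e r) + ε / 2 := h4.filter_mono nhdsWithin_le_nhds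
    have h6 : ∀ᶠ δ : ℝ in 𝓝[>] 0, 0 < δ := self_mem_nhdsWithin
    obtain ⟨δ, h7, h8⟩ := (h6.and h5).exists
    exact ⟨δ, h7, h8⟩
  -- the coefficients of the points of the box
  have h3 := fun e : ℕ => ind_up (ℓ := ℓ) h2 e hδ
  choose K0 hK0 using h3
  obtain ⟨K, hK1, hK2⟩ : ∃ K : ℕ, c + 1 ≤ K ∧ ∀ e, e < T + 1 → K0 e ≤ K := by
    refine ⟨c + 1 + ∑ e ∈ range (T + 1), K0 e, by omega, fun e he => ?_⟩
    have h4 : K0 e ≤ ∑ e ∈ range (T + 1), K0 e :=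
      single_le_sum (f := K0) (fun _ _ => Nat.zero_le _) (mem_range.2 he)
    omega
  have h4 : ∀ e : ℕ, ∃ v : ℕ → ℝ, e < T + 1 → 
      (∀ r, (if r = e then (1 : ℝ) else 0) ≤ evc ℓ K v r) ∧
      0 ≤ ∑ n ∈ range (K + 1), v n * ((AS ℓ n).card : ℝ) ∧
      ∑ n ∈ range (K + 1), v n * ((AS ℓ n).card : ℝ) ≤ lw ℓ e + δ := by
    intro e
    by_cases he : e < T + 1
    · obtain ⟨v, hv⟩ := hK0 e K (hK2 e he)
      exact ⟨v, fun _ => hv⟩
    · exact ⟨0, fun h => absurd h he⟩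
  choose v hv using h4
  refine ⟨K, Option {e // e ∈ bx}, inferInstance,
    fun i => i.elim (C0 * ((ℓ : ℝ)⁻¹) ^ (T + 1)) (fun e => f e.1),
    fun i r => i.elim (cg ℓ (c + 1)) (fun e => v (e.1 r)), ?_, ?_⟩
  · intro e
    rw [Fintype.sum_option]
    show f e ≤ C0 * ((ℓ : ℝ)⁻¹) ^ (T + 1) * ∏ r, evc ℓ K (cg ℓ (c + 1)) (e r) +
      ∑ e' : {e // e ∈ bx}, f e'.1 * ∏ r, evc ℓ K (v (e'.1 r)) (e r)
    have h5 : ∀ e' : {e // e ∈ bx}, ∀ r, (if e r = e'.1 r then (1 : ℝ) else 0) ≤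
        evc ℓ K (v (e'.1 r)) (e r) := by
      intro e' r
      exact (hv _ (hmem _ e'.2 r)).1 _
    have h6 : ∀ e' : {e // e ∈ bx}, 0 ≤ f e'.1 * ∏ r, evc ℓ K (v (e'.1 r)) (e r) := fun e' =>
      mul_nonneg (hf0 _) (prod_nonneg fun r _ => le_trans (by split_ifs <;> norm_num) (h5 e' r))
    have h7 : ∏ r, evc ℓ K (cg ℓ (c + 1)) (e r) = ∏ r, ((ℓ : ℝ) ^ e r) ^ (c + 1) :=
      prod_congr rfl fun r _ => evc_pow hK1 (e r)
    rw [h7]
    by_cases he : e ∈ bx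
    · have h8 : f e ≤ ∑ e' : {e // e ∈ bx}, f e'.1 * ∏ r, evc ℓ K (v (e'.1 r)) (e r) := by
        refine le_trans ?_ (single_le_sum (f := fun e' : {e // e ∈ bx} =>
          f e'.1 * ∏ r, evc ℓ K (v (e'.1 r)) (e r)) (fun e' _ => h6 e') (mem_univ ⟨e, he⟩))
        have h9 : (1 : ℝ) ≤ ∏ r, evc ℓ K (v (e r)) (e r) := by
          refine le_trans (le_of_eq ?_) (prod_le_prod (f := fun _ : R => (1 : ℝ))
            (fun r _ => by norm_num) (fun r _ => by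
              have := h5 ⟨e, he⟩ r
              rwa [if_pos rfl] at this))
          rw [prod_const_one]
        exact le_mul_of_one_le_right (hf0 e) h9
      have h9 : 0 ≤ C0 * ((ℓ : ℝ)⁻¹) ^ (T + 1) * ∏ r, ((ℓ : ℝ) ^ e r) ^ (c + 1) := by positivity
      linarith
    · have h8 : 0 ≤ ∑ e' : {e // e ∈ bx}, f e'.1 * ∏ r, evc ℓ K (v (e'.1 r)) (e r) :=
        sum_nonneg fun e' _ => h6 e'
      have h9 : f e ≤ C0 * ((ℓ : ℝ)⁻¹) ^ (T + 1) * ∏ r, ((ℓ : ℝ) ^ e r) ^ (c + 1) := by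
        rw [hbx, Fintype.mem_piFinset] at he
        push Not at he
        obtain ⟨r0, hr0⟩ := he
        rw [mem_range, not_lt] at hr0
        have h10 : (1 : ℝ) ≤ ((ℓ : ℝ)⁻¹) ^ (T + 1) * ∏ r, (ℓ : ℝ) ^ e r := by
          have h11 : (ℓ : ℝ) ^ (T + 1) ≤ ∏ r, (ℓ : ℝ) ^ e r := by
            rw [prod_pow_eq_pow_sum]
            apply pow_le_pow_right₀ hl1.le
            have h12 : e r0 ≤ ∑ r, e r :=
              single_le_sum (f := e) (fun _ _ => Nat.zero_le _) (mem_univ r0)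
            omega
          have h12 : ((ℓ : ℝ)⁻¹) ^ (T + 1) * (ℓ : ℝ) ^ (T + 1) = 1 := by
            rw [← mul_pow, inv_mul_cancel₀ hl.ne', one_pow]
          rw [← h12]
          exact mul_le_mul_of_nonneg_left h11 (by positivity)
        have h11 : ∏ r, ((ℓ : ℝ) ^ e r) ^ (c + 1) =
            (∏ r, ((ℓ : ℝ) ^ e r) ^ c) * ∏ r, (ℓ : ℝ) ^ e r := by
          rw [← prod_mul_distrib]
          exact prod_congr rfl fun r _ => pow_succ _ _
        rw [h11]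
        have h12 : 0 ≤ C0 * ∏ r, ((ℓ : ℝ) ^ e r) ^ c := by positivity
        calc f e ≤ C0 * ∏ r, ((ℓ : ℝ) ^ e r) ^ c := hf e
          _ ≤ C0 * (∏ r, ((ℓ : ℝ) ^ e r) ^ c) * (((ℓ : ℝ)⁻¹) ^ (T + 1) * ∏ r, (ℓ : ℝ) ^ e r) :=
            le_mul_of_one_le_right h12 h10
          _ = _ := by ring
      linarith
  · rw [Fintype.sum_option]
    show C0 * ((ℓ : ℝ)⁻¹) ^ (T + 1) * ∏ r : R, ∑ n ∈ range (K + 1),
        cg ℓ (c + 1) n * ((AS ℓ n).card : ℝ) +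
      ∑ e' : {e // e ∈ bx}, f e'.1 * ∏ r, ∑ n ∈ range (K + 1), v (e'.1 r) n *
        ((AS ℓ n).card : ℝ) ≤ _
    have h5 : ∏ r : R, ∑ n ∈ range (K + 1), cg ℓ (c + 1) n * ((AS ℓ n).card : ℝ) = M := by
      rw [hM]
      exact prod_congr rfl fun r _ => sum_cg_AS ℓ hK1
    rw [h5]
    have h6 : ∑ e' : {e // e ∈ bx}, f e'.1 * ∏ r, ∑ n ∈ range (K + 1), v (e'.1 r) n *
        ((AS ℓ n).card : ℝ) ≤ ∑ e ∈ bx, f e * ∏ r, (lw ℓ (e r) + δ) := by
      rw [← sum_coe_sort bx (fun e => f e * ∏ r, (lw ℓ (e r) + δ))]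
      apply sum_le_sum
      intro e' _
      apply mul_le_mul_of_nonneg_left _ (hf0 _)
      apply Finset.prod_le_prod
      · intro r _
        exact (hv _ (hmem _ e'.2 r)).2.1
      · intro r _
        exact (hv _ (hmem _ e'.2 r)).2.2
    have h7 : ∑ e ∈ bx, f e * ∏ r, lw ℓ (e r) ≤ Ex ℓ f := by
      rw [Ex]
      exact hs.sum_le_tsum bx fun e _ =>
        mul_nonneg (hf0 e) (prod_nonneg fun r _ => (lw_pos hℓ _).le)
    linarith

end many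

end Pool.Agent.Q269.OL
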