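import Pool.Agent.Q269.AV.Cw
import Pool.Agent.Q269.OL.Cof

/-!
# The mean value in a cell of a function of the dimensions of the kernels
-/

set_option autoImplicit false
set_option linter.all false

namespace Pool.Agent.Q269.OL

open Finset Polynomial
open Pool.Agent.Y164.SZ
open Pool.Agent.Q269.MF
open Pool.Agent.Q269.AV (XW CEw CellW FW)
open Pool.Agent.Q269.SL (evc sum_kLI)
open scoped Classical

section lin
variable {ℓ : ℕ} [hp : Fact ℓ.Prime] {k : Type} [Field k] [Fintype k] [DecidableEq k]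
variable {R : Type} [Fintype R] [DecidableEq R] {W : R → Type}
  [∀ r, AddCommGroup (W r)] [∀ r, Module (ZMod ℓ) (W r)] [∀ r, Fintype (W r)]
variable {τ : R → Type} [∀ r, Fintype (τ r)] (D : (r : R) → FDat ℓ (W r) (τ r))
variable {ι : Type} [Fintype ι]
variable {Q : (Σ r, τ r) → k[X]} {d : ι → ZMod ℓ} {𝒞 : ι → Finset k[X]}

/-- the dimensions of the kernels -/
noncomputable def dm (D : (r : R) → FDat ℓ (W r) (τ r)) (Q : (Σ r, τ r) → k[X]) (ι : Type)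
    [Fintype ι] (d : ι → ZMod ℓ) (T : ι → k[X]) (r : R) : ℕ :=
  Module.finrank (ZMod ℓ) (KerP (D r) (AT ℓ T) (BT ℓ (Qr Q r) T) d)

theorem card_dm (T : ι → k[X]) (r : R) :
    Nat.card (KerP (D r) (AT ℓ T) (BT ℓ (Qr Q r) T) d) = ℓ ^ dm D Q ι d T r :=
  card_pow (ℓ := ℓ) (KerP (D r) (AT ℓ T) (BT ℓ (Qr Q r) T) d)

theorem EX_dm (K : ℕ) (v : R → ℕ → ℝ) (T : ι → k[X]) :
    EX D Q d K v T = ∏ r, evc ℓ K (v r) (dm D Q ι d T r) := by
  rw [EX]
  exact prod_congr rfl fun r _ => sum_kLI (D r) _ _ _ (card_dm D T r) K (v r)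

/-- a function of the dimensions -/
noncomputable def Ff (D : (r : R) → FDat ℓ (W r) (τ r)) (Q : (Σ r, τ r) → k[X])
    (f : (R → ℕ) → ℝ) (ι : Type) [Fintype ι] (d : ι → ZMod ℓ) (T : ι → k[X]) : ℝ :=
  f (dm D Q ι d T)

/-- a function of the dimensions in the cells -/
theorem cell_f (hl2 : ℓ ≠ 2) (hw : ∀ r, 2 ≤ Fintype.card (W r)) (hG : ∀ r, CN (D r))
    (hDg : SYM0 ℓ k → ∀ (ι : Type) [Fintype ι] (d : ι → ZMod ℓ), Dg D Q d)
    {f : (R → ℕ) → ℝ} (hf0 : ∀ e, 0 ≤ f e) {C0 : ℝ} {c : ℕ}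
    (hf : ∀ e, f e ≤ C0 * ∏ r, ((ℓ : ℝ) ^ e r) ^ c) {ε : ℝ} (hε : 0 < ε) :
    CellW Q (spM D) (gM D) (fun x => ∀ r, IsUnit (x + (D r).N)) (Ff D Q f)
      (Ex ℓ f + ε) := by
  have hl := hp.out.one_lt
  have hl1 : (1 : ℝ) ≤ ℓ := by exact_mod_cast hl.le
  obtain ⟨K, I, hI, α, v, hv1, hv2⟩ := coeffs (R := R) (ℓ := ℓ) hl2 hf0 hf (half_pos hε)
  obtain ⟨Bv, hBv⟩ : ∃ Bv : I → ℝ, Bv = fun i =>
      ∑ m ∈ Fintype.piFinset (fun _ : R => range (K + 1)),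
      |∏ r, v i r (m r)| * (4 + ∏ r, ((AS ℓ (m r)).card : ℝ)) := ⟨_, rfl⟩
  have hBv0 : ∀ i, 0 ≤ Bv i := by
    intro i
    rw [hBv]
    apply sum_nonneg
    intro m _
    apply mul_nonneg (abs_nonneg _)
    have : (0 : ℝ) ≤ ∏ r, ((AS ℓ (m r)).card : ℝ) := prod_nonneg fun r _ => Nat.cast_nonneg _
    linarith
  obtain ⟨BK, hBKd⟩ : ∃ BK : ℝ, BK = ∑ i, |α i| * Bv i := ⟨_, rfl⟩
  have hBK : 0 ≤ BK := by
    rw [hBKd]
    exact sum_nonneg fun i _ => mul_nonneg (abs_nonneg _) (hBv0 i)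
  obtain ⟨δ, hδd⟩ : ∃ δ : ℝ, δ = min (1 / 2) (ε / 2 / (BK + 1)) := ⟨_, rfl⟩
  have hδ : 0 < δ := by
    rw [hδd]
    exact lt_min (by norm_num) (by positivity)
  have hδ2 : δ ≤ 1 / 2 := by rw [hδd]; exact min_le_left _ _
  have hδ3 : BK * δ ≤ ε / 2 := by
    have h3 : δ ≤ ε / 2 / (BK + 1) := by rw [hδd]; exact min_le_right _ _
    have h4 : BK * (ε / 2 / (BK + 1)) ≤ ε / 2 := by
      rw [mul_div_assoc', div_le_iff₀ (by linarith)]
      nlinarith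
    exact (mul_le_mul_of_nonneg_left h3 hBK).trans h4
  have hw0 : ∀ r, 0 < Fintype.card (W r) := fun r => by have := hw r; omega
  have hP1 : 1 ≤ PW W (fun _ => K) := prod_pos fun r _ => pow_pos (hw0 r) _
  obtain ⟨P, hP⟩ : ∃ P : ℕ, P = PW W (fun _ => K) := ⟨_, rfl⟩
  rw [← hP] at hP1
  obtain ⟨C1, hC1⟩ : ∃ C1 : ℝ, C1 = 2 ^ (P ^ 2) *
      (ℓ : ℝ) ^ (Fintype.card (Σ r, τ r) * (2 * K + 1)) * (P : ℝ) := ⟨_, rfl⟩
  obtain ⟨C2, hC2⟩ : ∃ C2 : ℝ, C2 = ((ℓ : ℝ) ^ Fintype.card (Σ r, τ r)) ^ (K + 1) := ⟨_, rfl⟩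
  obtain ⟨C3, hC3⟩ : ∃ C3 : ℝ, C3 = 2 * (ℓ : ℝ) ^ K * (PW W (fun _ => 1) : ℝ) *
    (Fintype.card R + 1) := ⟨_, rfl⟩
  have hP1r : (1 : ℝ) ≤ P := by exact_mod_cast hP1
  have h1C1 : 0 ≤ C1 := by rw [hC1]; positivity
  have h1C2 : 1 ≤ C2 := by rw [hC2]; exact one_le_pow₀ (one_le_pow₀ hl1)
  have h1C3 : 0 ≤ C3 := by rw [hC3]; positivity
  refine ⟨P ^ 2 + 1, 2 * P, (C1 + C2 + C3) / δ, by omega, by omega, ?_, ?_⟩
  · rw [le_div_iff₀ hδ]
    linarith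
  intro ι _ d 𝒞 lg Nd η s hc hN hsing hs1 hR hs hA hB
  have hη := hc.eta0
  have hl0 : (0 : ℝ) < ℓ := by linarith
  have ht : (0 : ℝ) < (ℓ : ℝ) ^ Fintype.card (Σ r, τ r) := by positivity
  have hx : (0 : ℝ) ≤ (1 / 2 : ℝ) ^ s := by positivity
  have hA1 : C1 * (1 / 2) ^ s ≤ δ ∧ C3 * (1 / 2) ^ s ≤ δ := by
    rw [div_mul_eq_mul_div, div_le_one hδ] at hA
    have a1 : 0 ≤ C1 * (1 / 2) ^ s := mul_nonneg h1C1 hx
    have a2 : 0 ≤ C2 * (1 / 2) ^ s := mul_nonneg (by linarith) hx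
    have a3 : 0 ≤ C3 * (1 / 2) ^ s := mul_nonneg h1C3 hx
    constructor <;> linarith
  have hy : (0 : ℝ) ≤ ((2 * P : ℕ) : ℝ) ^ Fintype.card ι := by positivity
  have hB0 : η * ((C1 + C2 + C3) * ((2 * P : ℕ) : ℝ) ^ Fintype.card ι) ≤ δ := by
    have : η * ((C1 + C2 + C3) / δ * ((2 * P : ℕ) : ℝ) ^ Fintype.card ι) =
        (η * ((C1 + C2 + C3) * ((2 * P : ℕ) : ℝ) ^ Fintype.card ι)) / δ := by
      field_simp
    rw [this, div_le_one hδ] at hB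
    exact hB
  have hB1 : η * ((P : ℝ) ^ Fintype.card ι *
      ((ℓ : ℝ) ^ Fintype.card (Σ r, τ r)) ^ (K + 1)) ≤ δ := by
    refine le_trans ?_ hB0
    apply mul_le_mul_of_nonneg_left _ hη
    rw [← hC2, mul_comm]
    have h1 : (P : ℝ) ^ Fintype.card ι ≤ ((2 * P : ℕ) : ℝ) ^ Fintype.card ι := by
      apply pow_le_pow_left₀ (by linarith)
      push_cast
      linarith
    exact mul_le_mul (by linarith) h1 (by positivity) (by linarith)
  have hXW : XW Q (spM D) (gM D) (Ff D Q f ι d) 𝒞 ≤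
      ∑ i, α i * ∑ T ∈ Fintype.piFinset 𝒞, (if ok Q T ∧ clM D Q T then EX D Q d K (v i) T else 0) := by
    simp only [mul_sum]
    rw [XW, sum_comm]
    refine sum_le_sum fun T _ => ?_
    by_cases h : ok Q T ∧ clM D Q T
    · simp only [if_pos h]
      rw [if_pos ⟨h.1, (cla_iff D T).2 h.2⟩]
      refine (hv1 (dm D Q ι d T)).trans (le_of_eq ?_)
      refine sum_congr rfl fun i _ => ?_
      rw [EX_dm]
    · simp only [if_neg h, mul_zero, sum_const_zero]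
      rw [if_neg fun h' => h ⟨h'.1, (cla_iff D T).1 h'.2⟩]
  by_cases hsm : ∀ T ∈ Fintype.piFinset 𝒞, ∀ x y : ι ⊕ (Σ r, τ r), (∀ j ∈ lg, x ≠ Sum.inl j) →
    (∀ j ∈ lg, y ≠ Sum.inl j) → Sum.elim T Q x = Sum.elim T Q y → x = y
  · have hOK : ((Fintype.piFinset 𝒞).card : ℝ) ≤ 2 * OK Q 𝒞 := by
      have h3 := OK_ge hc hsm
      have h4 : (lg.card : ℝ) * η ≤ 1 / 2 := by
        have h5 : (lg.card : ℝ) ≤ (C1 + C2 + C3) * ((2 * P : ℕ) : ℝ) ^ Fintype.card ι := by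
          have hlm : lg.card ≤ Fintype.card ι := card_le_univ _
          have h6 : Fintype.card ι < (2 * P) ^ Fintype.card ι :=
            Nat.lt_pow_self (by omega)
          have h7 : (lg.card : ℝ) ≤ ((2 * P : ℕ) : ℝ) ^ Fintype.card ι := by
            exact_mod_cast hlm.trans h6.le
          refine h7.trans (le_mul_of_one_le_left hy ?_)
          linarith
        have h6 := mul_le_mul_of_nonneg_left h5 hη
        linarith
      have h5 : (0 : ℝ) ≤ ((Fintype.piFinset 𝒞).card : ℝ) := Nat.cast_nonneg _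
      nlinarith
    have hX0 : 0 ≤ OK Q 𝒞 := OK_nonneg
    have hmom : ∀ m : R → ℕ, (∀ r, m r ≤ K) → |SSm D Q d 𝒞 m *
        (ℓ : ℝ) ^ Fintype.card (Σ r, τ r) -
        (∏ r, ((AS ℓ (m r)).card : ℝ)) * OK Q 𝒞| ≤
        (4 + ∏ r, ((AS ℓ (m r)).card : ℝ)) * δ * OK Q 𝒞 := by
      intro m hm
      exact mom_m D hc hN hG (hDg hc.S ι d) hw hm hδ hδ2 (by rw [← hP]; exact hR) hs
        (by rw [← hP, ← hC1]; exact hA1.1) (by rw [← hP]; exact hB1)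
        (by rw [← hC3]; exact hA1.2) hOK
    have h5 := fun i : I => lin_est D hX0 ht.le hmom (v i)
    have h6 : ∀ i : I, α i * ((ℓ : ℝ) ^ Fintype.card (Σ r, τ r) *
        ∑ T ∈ Fintype.piFinset 𝒞, (if ok Q T ∧ clM D Q T then EX D Q d K (v i) T else 0)) ≤
        α i * (∏ r, ∑ j ∈ range (K + 1), v i r j * ((AS ℓ j).card : ℝ)) * OK Q 𝒞 +
          |α i| * Bv i * δ * OK Q 𝒞 := by
      intro i
      have h7 := h5 i
      have h8 : Bv i = ∑ m ∈ Fintype.piFinset (fun _ : R => range (K + 1)),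
        |∏ r, v i r (m r)| * (4 + ∏ r, ((AS ℓ (m r)).card : ℝ)) := by rw [hBv]
      rw [← h8] at h7
      have h9 := mul_le_mul_of_nonneg_left h7 (abs_nonneg (α i))
      rw [← abs_mul] at h9
      have h10 := (le_abs_self _).trans h9
      linarith
    have h7 := mul_le_mul_of_nonneg_left hXW ht.le
    rw [mul_sum] at h7
    have h8 := sum_le_sum fun (i : I) (_ : i ∈ univ) => h6 i
    rw [sum_add_distrib, ← sum_mul, ← sum_mul, ← sum_mul, ← hBKd] at h8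
    have h9 : ∑ i, (ℓ : ℝ) ^ Fintype.card (Σ r, τ r) * (α i *
        ∑ T ∈ Fintype.piFinset 𝒞, (if ok Q T ∧ clM D Q T then EX D Q d K (v i) T else 0)) =
        ∑ i, α i * ((ℓ : ℝ) ^ Fintype.card (Σ r, τ r) *
        ∑ T ∈ Fintype.piFinset 𝒞, (if ok Q T ∧ clM D Q T then EX D Q d K (v i) T else 0)) :=
      sum_congr rfl fun i _ => by ring
    rw [h9] at h7
    have h10 : BK * δ * OK Q 𝒞 ≤ ε / 2 * OK Q 𝒞 := mul_le_mul_of_nonneg_right hδ3 hX0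
    have h11 := mul_le_mul_of_nonneg_right hv2 hX0
    linarith
  · push Not at hsm
    obtain ⟨T0, hT0, x, y, hx, hy, hxy, hne⟩ := hsm
    have hno : ∀ T ∈ Fintype.piFinset 𝒞, ¬ ok Q T := by
      intro T hT hok
      apply hne
      apply hok
      have key : ∀ x : ι ⊕ (Σ r, τ r), (∀ j ∈ lg, x ≠ Sum.inl j) →
          Sum.elim T Q x = Sum.elim T0 Q x := by
        rintro (i | s) hx
        · have hi : i ∉ lg := fun h => hx i h rfl
          obtain ⟨p, hp⟩ := hsing i hi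
          have h5 := Fintype.mem_piFinset.1 hT i
          have h6 := Fintype.mem_piFinset.1 hT0 i
          rw [hp, mem_singleton] at h5 h6
          show T i = T0 i
          rw [h5, h6]
        · rfl
      rw [key x hx, key y hy, hxy]
    have h6 : OK Q 𝒞 = 0 := sum_eq_zero fun T hT => if_neg fun h => hno T hT h
    have h7 : XW Q (spM D) (gM D) (Ff D Q f ι d) 𝒞 = 0 :=
      sum_eq_zero fun T hT => if_neg fun h => hno T hT h.1
    rw [h6, h7, mul_zero, mul_zero]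

end lin

end Pool.Agent.Q269.OL
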