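import Pool.Agent.Q269.OL.Bnd

/-!
# The case in which the bound is one
-/

set_option autoImplicit false
set_option linter.all false

open Polynomial IsDedekindDomain
open scoped Classical

namespace Pool.Agent.Q269.OL

open Pool.Agent.Y713.SE.Dat (au mC_phi phi_apply)
open Pool.Agent.Y713.Jac (J Cochain IsCocycle IsLocallyTrivial IsCoboundary mapJ CoordRing
  ShaPrimaryTrivial)

section
variable {ℓ n : ℕ} {K : Type} [Field K] (D : Pool.Agent.Y713.SE.Dat ℓ n K)

theorem Te_nat {L L' : Type} [Field L] [Algebra K L] [Field L'] [Algebra K L'] (φ : L →ₐ[K] L')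
    (c : ClassGroup (D.base L).A) : D.Te L' (D.mC φ c) = mapJ ℓ D.f φ (D.Te L c) := D.Th_nat φ c

theorem phi_iter {R : Type} [CommRing R] [IsDedekindDomain R]
    [Algebra R K] [IsFractionRing R K] (h : BoundedPhi ℓ D.f (zeta_pow D) R 1)
    (x : ClassGroup (D.base K).A) : ∃ T y : ClassGroup (D.base K).A, (D.base K).phi T = 1 ∧
      x = T * (D.base K).phi y := by
  by_contra hno
  have h1 := h 2 1 (fun i => if i = 0 then D.Te K x else 1) (fun _ _ => 1) ?_ ?_ ?_ ?_ ?_
  · omega
  · have key : ∀ T y : J ℓ D.f K, phiJ ℓ D.f (zeta_pow D) T = 1 →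
        D.Te K x ≠ T * phiJ ℓ D.f (zeta_pow D) y := by
      intro T y hT hy
      apply hno
      refine ⟨(D.Te K).symm T, (D.Te K).symm y, ?_, ?_⟩
      · rw [← Te_symm_phi, hT, map_one]
      · rw [← Te_symm_phi, ← map_mul, ← hy, MulEquiv.symm_apply_apply]
    have hinv : ∀ y : J ℓ D.f K, phiJ ℓ D.f (zeta_pow D) y⁻¹ = (phiJ ℓ D.f (zeta_pow D) y)⁻¹ := by
      intro y
      rw [phiJ, phiJ, map_inv, inv_div_inv, inv_div]
    intro i j hij
    rintro ⟨T, y, hT, hy⟩
    fin_cases i <;> fin_cases j
    · exact hij rfl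
    · have h2 : D.Te K x = 1 * T * phiJ ℓ D.f (zeta_pow D) y := hy
      rw [one_mul] at h2
      exact key T y hT h2
    · have h2 : (1 : J ℓ D.f K) = D.Te K x * T * phiJ ℓ D.f (zeta_pow D) y := hy
      apply key T⁻¹ y⁻¹
      · rw [hinv, hT, inv_one]
      · rw [hinv, ← mul_inv, eq_inv_iff_mul_eq_one, ← mul_assoc]
        exact h2.symm
    · exact hij rfl
  · intro j
    refine ⟨IsLocallyConstant.const _, fun σ τ => ?_⟩
    rw [map_one, mul_one]
  · intro j v
    refine ⟨IsSepClosed.lift, 1, fun τ σ _ => ?_⟩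
    rw [map_one, map_one, div_one]
  · intro j
    refine ⟨1, fun σ => ?_⟩
    rw [map_one, div_one, phiJ, map_one, div_one]
  · intro i j hij
    exact absurd (Subsingleton.elim i j) hij

theorem phi_iter' {R : Type} [CommRing R] [IsDedekindDomain R]
    [Algebra R K] [IsFractionRing R K] (h : BoundedPhi ℓ D.f (zeta_pow D) R 1) (m : ℕ) :
    ∀ x : ClassGroup (D.base K).A, ∃ T y : ClassGroup (D.base K).A, (D.base K).phi T = 1 ∧
      x = T * (D.base K).phi^[m + 1] y := by
  induction m with
  | zero => exact fun x => phi_iter D h x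
  | succ m ih =>
    intro x
    obtain ⟨T, y, hT, hy⟩ := ih x
    obtain ⟨T', y', hT', hy'⟩ := phi_iter D h y
    refine ⟨T, y', hT, ?_⟩
    rw [hy]
    congr 1
    rw [hy', Function.iterate_succ_apply, map_mul, hT', one_mul, ← Function.iterate_succ_apply,
      ← Function.iterate_succ_apply]

theorem pow_of_phi {T : ClassGroup (D.base K).A} (h : (D.base K).phi T = 1) : T ^ ℓ = 1 := by
  have h1 : (D.base K).sC T = T := by
    rw [phi_apply, div_eq_one] at h
    exact h.symm
  have h2 := (D.base K).prod_sC T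
  rw [Finset.prod_congr rfl fun j _ => Function.iterate_fixed h1 j, Finset.prod_const,
    Finset.card_range] at h2
  exact h2

/-- the case in which the bound is one -/
theorem good_of_one {R : Type} [CommRing R] [IsDedekindDomain R]
    [Algebra R K] [IsFractionRing R K] (h : BoundedPhi ℓ D.f (zeta_pow D) R 1) :
    ShaPrimaryTrivial ℓ D.f R ∧ ∀ x : J ℓ D.f K, ∃ t y : J ℓ D.f K, t ^ ℓ = 1 ∧ x = t * y ^ ℓ := by
  constructor
  · apply D.sha_primary (R := R)
    intro χ hc ht
    by_contra hno
    obtain ⟨c, hcd⟩ : ∃ c : Cochain ℓ D.f, c = fun σ => D.Te (SeparableClosure K)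
        (Pool.Agent.Y713.SE.cl ((D.base (SeparableClosure K)).PT (χ σ))) := ⟨_, rfl⟩
    have hcob : ∀ c' : Cochain ℓ D.f, IsCoboundary ℓ D.f c' → (∀ σ, c' σ = c σ ∨ False) → False := by
      rintro c' ⟨Q, hQ⟩ he
      apply hno
      refine ⟨(D.Te _).symm Q, fun σ => ?_⟩
      have h1 := hQ σ
      rw [(he σ).resolve_right id, hcd] at h1
      have h2 := congrArg (D.Te (SeparableClosure K)).symm h1
      rw [MulEquiv.symm_apply_apply, _root_.map_div, D.Te_symm_nat] at h2
      exact h2
    have h1 := h 1 2 (fun _ => 1) (fun j => if j = 0 then c else fun _ => 1) ?_ ?_ ?_ ?_ ?_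
    · omega
    · intro i j hij
      exact absurd (Subsingleton.elim i j) hij
    · intro j
      by_cases hj : j = 0
      · simp only [if_pos hj]
        rw [hcd]
        refine ⟨hc.1.comp _, fun σ τ => ?_⟩
        have h2 := hc.2 σ τ
        simp only at h2 ⊢
        rw [h2, map_mul, Te_nat]
      · simp only [if_neg hj]
        refine ⟨IsLocallyConstant.const _, fun σ τ => ?_⟩
        rw [map_one, mul_one]
    · intro j
      by_cases hj : j = 0
      · simp only [if_pos hj]
        intro v
        obtain ⟨ι, P, h2⟩ := ht v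
        refine ⟨ι, D.Te _ P, fun τ σ hτσ => ?_⟩
        have h3 := congrArg (D.Te _) (h2 τ σ hτσ)
        rw [Te_nat, _root_.map_div, Te_nat] at h3
        rw [hcd]
        exact h3
      · simp only [if_neg hj]
        intro v
        refine ⟨IsSepClosed.lift, 1, fun τ σ _ => ?_⟩
        rw [map_one, map_one, div_one]
    · intro j
      refine ⟨1, fun σ => ?_⟩
      rw [map_one, div_one]
      by_cases hj : j = 0
      · simp only [if_pos hj]
        rw [hcd]
        show phiJ ℓ D.f (zeta_pow D) (D.Te (SeparableClosure K) _) = 1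
        rw [← Te_phi, phi_PT, map_one]
      · simp only [if_neg hj]
        rw [phiJ, map_one, div_one]
    · intro i j hij
      fin_cases i <;> fin_cases j
      · exact absurd rfl hij
      · intro h2
        refine hcob _ h2 fun σ => Or.inl ?_
        show c σ / 1 = c σ
        rw [div_one]
      · rintro ⟨Q, hQ⟩
        refine hcob c ⟨Q⁻¹, fun σ => ?_⟩ fun σ => Or.inl rfl
        have h2 : 1 / c σ = mapJ ℓ D.f σ.toAlgHom Q / Q := hQ σ
        rw [map_inv, inv_div_inv, ← inv_div, ← h2, one_div, inv_inv]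
      · exact absurd rfl hij
  · intro x
    obtain ⟨w, -, hw⟩ := (D.base K).phi_pow 1
    have hl := D.hp.two_le
    obtain ⟨T, y, hT, hy⟩ := phi_iter' D h (ℓ - 2) ((D.Te K).symm x)
    have h1 : ℓ - 2 + 1 = (ℓ - 1) * 1 := by omega
    rw [h1, hw, pow_one, map_pow] at hy
    refine ⟨D.Te K T, D.Te K (w y), ?_, ?_⟩
    · rw [← map_pow, pow_of_phi D hT, map_one]
    · rw [← map_pow, ← map_mul, ← hy, MulEquiv.apply_symm_apply]

end

end Pool.Agent.Q269.OL
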