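import Pool.Agent.Q269.OL.Mom
import Pool.Agent.Q269.OL.Gd

/-!
# The final forms for odd primes
-/

set_option autoImplicit false
set_option linter.all false

namespace Pool.Agent.Q269.OL

open Finset Polynomial Filter Topology IsDedekindDomain
open Pool.Agent.Q269.MF (twm)
open Pool.Agent.Y164.HG (cur)
open Pool.Agent.Y713.Jac (J ShaPrimaryTrivial)
open Pool.Agent.Y713.SE (tDat)
open scoped Classical

/-- the case in which the bound is one -/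
theorem good_cur {ℓ : ℕ} (hℓ : ℓ.Prime) {k : Type} [Field k] {ζ : k}
    (hζ : IsPrimitiveRoot ζ ℓ) (hζ' : ζ ^ ℓ = 1) (K : Type) [Field K] [Algebra k[X] K]
    [IsFractionRing k[X] K] {n : ℕ} (hn : ¬ ℓ ∣ n) {a : Fin n → k[X]}
    (hinj : Function.Injective a) {E : k[X]} (hE : E ≠ 0)
    (h : BoundedPhi ℓ (cur K a E) (zK hζ' K) k[X] 1) :
    ShaPrimaryTrivial ℓ (cur K a E) k[X] ∧
      ∀ x : J ℓ (cur K a E) K, ∃ t y : J ℓ (cur K a E) K, t ^ ℓ = 1 ∧ x = t * y ^ ℓ := by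
  haveI : NeZero ℓ := ⟨hℓ.ne_zero⟩
  have hlk : ((ℓ : ℕ) : k) ≠ 0 := (IsPrimitiveRoot.neZero' hζ).out
  have hi : Function.Injective (algebraMap k[X] K) := IsFractionRing.injective k[X] K
  have hδ : algebraMap k[X] K E ≠ 0 := (map_ne_zero_iff _ hi).2 hE
  have he : Function.Injective (fun i => algebraMap k[X] K (a i)) := hi.comp hinj
  obtain ⟨D0, hD⟩ : ∃ D0 : Pool.Agent.Y713.SE.Dat ℓ n K,
      D0 = tDat K hℓ hlk hζ hδ he hn := ⟨_, rfl⟩
  have hDδ : D0.δ = algebraMap k[X] K E := by rw [hD]; rfl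
  have hDe : ∀ i, D0.e i = algebraMap k[X] K (a i) := fun i => by rw [hD]; rfl
  have hDζ : D0.ζ = algebraMap k[X] K (C ζ) := by rw [hD]; rfl
  have hf : D0.f = cur K a E := by
    rw [Pool.Agent.Y713.SE.Dat.f, hDδ, cur]
    simp only [hDe]
  have hgen : ∀ (F F' : K[X]) (z z' : K) (hz : z ^ ℓ = 1) (hz' : z' ^ ℓ = 1) (M : ℕ), F = F' →
      z = z' → BoundedPhi ℓ F hz k[X] M → BoundedPhi ℓ F' hz' k[X] M := by
    intro F F' z z' hz hz' M h1 h2 h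
    subst h1
    subst h2
    exact h
  have h1 : BoundedPhi ℓ D0.f (zeta_pow D0) k[X] 1 := hgen _ _ _ _ _ _ _ hf.symm hDζ.symm h
  rw [← hf]
  exact good_of_one D0 h1

theorem GG_le_of {ℓ : ℕ} {k : Type} [Field k] {ζ : k} (hζ' : ζ ^ ℓ = 1) (K : Type) [Field K]
    [Algebra k[X] K] [IsFractionRing k[X] K] {R : Type} {n : R → ℕ}
    (a : (r : R) → Fin (n r) → k[X]) {f g : (R → ℕ) → ℝ} (h : ∀ e, f e ≤ g e) (E : k[X]) :
    GG ℓ hζ' K a f E ≤ GG ℓ hζ' K a g E := h _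

section
variable {R : Type} [Fintype R]

theorem hasSum_one_pi {ℓ : ℕ} (hℓ : 2 ≤ ℓ) :
    HasSum (fun e : R → ℕ => ∏ r, lw ℓ (e r)) 1 := by
  have h := hasSum_pi (R := R) (g := fun _ => lw ℓ) (s := fun _ => 1)
    (fun r n => (lw_pos hℓ n).le) (fun r => hasSum_lw hℓ)
  simpa using h

/-- a function of one coordinate -/
theorem hasSum_coord {ℓ : ℕ} (hℓ : 2 ≤ ℓ) (r0 : R) {g : ℕ → ℝ} (hg : ∀ n, 0 ≤ g n) {s : ℝ}
    (hs : HasSum (fun n => g n * lw ℓ n) s) :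
    HasSum (fun e : R → ℕ => g (e r0) * ∏ r, lw ℓ (e r)) s := by
  have h := hasSum_pi (R := R) (g := fun r n => if r = r0 then g n * lw ℓ n else lw ℓ n)
    (s := fun r => if r = r0 then s else 1) (fun r n => by
      split_ifs
      · exact mul_nonneg (hg n) (lw_pos hℓ n).le
      · exact (lw_pos hℓ n).le) (fun r => by
      by_cases h : r = r0
      · simp only [if_pos h]
        exact hs
      · simp only [if_neg h]
        exact hasSum_lw hℓ)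
  have h1 : ∏ r : R, (if r = r0 then s else 1) = s := by
    rw [prod_ite_eq' univ r0 (fun _ => s), if_pos (mem_univ _)]
  rw [h1] at h
  have h2 : (fun e : R → ℕ => g (e r0) * ∏ r, lw ℓ (e r)) =
      fun e : R → ℕ => ∏ r, (if r = r0 then g (e r) * lw ℓ (e r) else lw ℓ (e r)) := by
    funext e
    rw [← mul_prod_erase univ (fun r => lw ℓ (e r)) (mem_univ r0),
      ← mul_prod_erase univ _ (mem_univ r0), if_pos rfl, mul_assoc]
    congr 2
    refine prod_congr rfl fun r hr => ?_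
    rw [if_neg (ne_of_mem_erase hr)]
  rw [h2]
  exact h

end

/-- the mean value of the dimension -/
noncomputable def rho (ℓ : ℕ) : ℝ := ∑' e : ℕ, (e : ℝ) * lw ℓ e

theorem le_pow_sub {ℓ : ℕ} (hℓ : 2 ≤ ℓ) (e : ℕ) : ((ℓ : ℝ) - 1) * e ≤ (ℓ : ℝ) ^ e - 1 := by
  have h2 := two_leR hℓ
  have := one_add_mul_le_pow (a := (ℓ : ℝ) - 1) (by linarith) e
  rw [add_sub_cancel] at this
  linarith

theorem summable_rho {ℓ : ℕ} (hℓ : 2 ≤ ℓ) : Summable (fun e : ℕ => (e : ℝ) * lw ℓ e) := by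
  have h1 := (hasSum_mom hℓ 1).summable
  have h2 := two_leR hℓ
  refine Summable.of_nonneg_of_le (fun e => mul_nonneg (Nat.cast_nonneg _) (lw_pos hℓ e).le)
    (fun e => ?_) h1
  rw [mul_comm, pow_one]
  apply mul_le_mul_of_nonneg_left _ (lw_pos hℓ e).le
  have h3 := le_pow_sub hℓ e
  have h4 : (0 : ℝ) ≤ e := Nat.cast_nonneg _
  nlinarith

theorem rho_nonneg {ℓ : ℕ} (hℓ : 2 ≤ ℓ) : 0 ≤ rho ℓ :=
  tsum_nonneg fun e => mul_nonneg (Nat.cast_nonneg _) (lw_pos hℓ e).le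

/-- the mean rank is less than one -/
theorem rho_lt {ℓ : ℕ} (hℓ : 2 ≤ ℓ) : ((ℓ : ℝ) - 1) * rho ℓ < 1 := by
  have h2 := two_leR hℓ
  have h1 := hasSum_mom hℓ 1
  have h0 := hasSum_lw hℓ
  have h3 : HasSum (fun e => lw ℓ e * ((ℓ : ℝ) ^ e) ^ 1 - lw ℓ e) 1 := by
    have h := h1.sub h0
    have e1 : ∏ i ∈ range 1, (1 + (ℓ : ℝ) ^ i) - 1 = 1 := by
      rw [range_one, prod_singleton, pow_zero]
      norm_num
    rw [e1] at h
    exact h
  have h4 := (summable_rho hℓ).hasSum.mul_left ((ℓ : ℝ) - 1)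
  refine hasSum_lt (i := 2) (fun e => ?_) ?_ h4 h3
  · show ((ℓ : ℝ) - 1) * ((e : ℝ) * lw ℓ e) ≤ lw ℓ e * ((ℓ : ℝ) ^ e) ^ 1 - lw ℓ e
    have h5 := mul_le_mul_of_nonneg_left (le_pow_sub hℓ e) (lw_pos hℓ e).le
    rw [pow_one]
    linarith
  · show ((ℓ : ℝ) - 1) * (((2 : ℕ) : ℝ) * lw ℓ 2) < lw ℓ 2 * ((ℓ : ℝ) ^ 2) ^ 1 - lw ℓ 2
    have h5 := lw_pos hℓ 2
    have h6 : ((ℓ : ℝ) - 1) * 2 < (ℓ : ℝ) ^ 2 - 1 := by nlinarith
    have h7 := mul_lt_mul_of_pos_left h6 h5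
    rw [pow_one]
    push_cast
    linarith

section fin
variable {ℓ : ℕ} (hℓ : ℓ.Prime) (hl2 : ℓ ≠ 2)
    {k : Type} [Field k] [Finite k] (h2 : (2 : k) ≠ 0) {ζ : k} (hζ : IsPrimitiveRoot ζ ℓ)
    (hζ' : ζ ^ ℓ = 1)
    (K : Type) [Field K] [Algebra k[X] K] [IsFractionRing k[X] K] {R : Type} [Fintype R]
    {n : R → ℕ} (hn : ∀ r, ¬ ℓ ∣ n r) (hn3 : ∀ r, 3 ≤ n r) (N : R → ℕ) (hN : ∀ r, 1 ≤ N r)
    (a : (r : R) → Fin (n r) → k[X])
    (hdeg : ∀ r i j, i ≠ j → (a r i - a r j).natDegree = N r)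
    (hsq : ∀ r, Squarefree (Pool.Agent.Y164.HG.Del (a r)))
    (hcop : ∀ r r', r ≠ r' → IsCoprime (Pool.Agent.Y164.HG.Del (a r))
      (Pool.Agent.Y164.HG.Del (a r')))

include hℓ hl2 h2 hζ hn hn3 N hN hdeg hsq hcop

/-- the law for odd primes -/
theorem final_law (f : (R → ℕ) → ℝ) (hf : Monotone f) {B : ℝ} (hB : ∀ e, |f e| ≤ B) :
    Summable (fun e : R → ℕ => f e * ∏ r, lw ℓ (e r)) ∧
    ∀ ε : ℝ, 0 < ε → ∀ᶠ m : ℕ in atTop, (∀ r, ¬ ℓ ∣ m + n r * N r) →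
      ∑ᶠ E ∈ twm a m, GG ℓ hζ' K a f E ≤
        ((∑' e : R → ℕ, f e * ∏ r, lw ℓ (e r)) + ε) * ((twm a m).ncard : ℝ) := by
  haveI : Fact ℓ.Prime := ⟨hℓ⟩
  have hl := hℓ.two_le
  have h1 := hasSum_one_pi (R := R) hl
  have hB0 : 0 ≤ B := (abs_nonneg _).trans (hB (fun _ => 0))
  have hg0 : ∀ e, 0 ≤ f e + B := fun e => by
    have := (abs_le.1 (hB e)).1
    linarith
  have hg1 : ∀ e : R → ℕ, f e + B ≤ (2 * B) * ∏ r, ((ℓ : ℝ) ^ e r) ^ 0 := fun e => by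
    have := (abs_le.1 (hB e)).2
    simp only [pow_zero, prod_const_one, mul_one]
    linarith
  have hs := summ_f (ℓ := ℓ) hg0 hg1
  have hs' : Summable (fun e : R → ℕ => f e * ∏ r, lw ℓ (e r)) := by
    have h3 := hs.sub (h1.summable.mul_left B)
    refine h3.congr fun e => ?_
    ring
  refine ⟨hs', fun ε hε => ?_⟩
  have h4 : Ex ℓ (fun e : R → ℕ => f e + B) = (∑' e : R → ℕ, f e * ∏ r, lw ℓ (e r)) + B := by
    have h5 := hs'.hasSum.add (h1.mul_left B)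
    rw [mul_one] at h5
    rw [Ex, ← h5.tsum_eq]
    refine tsum_congr fun e => ?_
    ring
  have h6 := (final_f hℓ hl2 h2 hζ hζ' K hn hn3 N hN a hdeg hsq hcop).2.2 (fun e => f e + B)
    (fun e e' h => by
      have := hf h
      show f e + B ≤ f e' + B
      linarith) hg0 _ 0 hg1 ε hε
  filter_upwards [h6] with m hm ho
  have h7 := hm ho
  rw [h4] at h7
  letI : Fintype k := Fintype.ofFinite k
  have hfin : (twm a m).Finite := by
    refine Set.Finite.subset (Finset.finite_toSet (Pool.Agent.Y164.PS.Sf k m)) ?_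
    rintro E ⟨a1, a2, a3, -⟩
    exact Pool.Agent.Y164.PS.mem_Sf.2 ⟨a1, a2, a3⟩
  have h8 : ∑ᶠ E ∈ twm a m, GG ℓ hζ' K a (fun e => f e + B) E =
      ∑ᶠ E ∈ twm a m, GG ℓ hζ' K a f E + B * ((twm a m).ncard : ℝ) := by
    rw [finsum_mem_eq_finite_toFinset_sum _ hfin, finsum_mem_eq_finite_toFinset_sum _ hfin,
      Set.ncard_eq_toFinset_card _ hfin]
    show ∑ E ∈ hfin.toFinset, (GG ℓ hζ' K a f E + B) = _
    rw [sum_add_distrib, sum_const, nsmul_eq_mul]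
    ring
  rw [h8] at h7
  linarith

/-- the moments for odd primes -/
theorem final_mom (c : R → ℕ) (ε : ℝ) (hε : 0 < ε) :
    ∀ᶠ m : ℕ in atTop, (∀ r, ¬ ℓ ∣ m + n r * N r) →
      ∑ᶠ E ∈ twm a m, ∏ r, (sz ℓ (cur K (a r) E) (zK hζ' K) k[X] : ℝ) ^ c r ≤
        ((∏ r, ∏ i ∈ range (c r), (1 + (ℓ : ℝ) ^ i)) + ε) * ((twm a m).ncard : ℝ) := by
  haveI : Fact ℓ.Prime := ⟨hℓ⟩
  have hl := hℓ.two_le
  have hl1 : (1 : ℝ) ≤ ℓ := by exact_mod_cast hℓ.one_lt.le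
  have hl1' : 1 < ℓ := hℓ.one_lt
  obtain ⟨C, hC⟩ : ∃ C : ℕ, ∀ r, c r ≤ C :=
    ⟨∑ r, c r, fun r => single_le_sum (f := c) (fun _ _ => Nat.zero_le _) (mem_univ r)⟩
  have h6 := (final_f hℓ hl2 h2 hζ hζ' K hn hn3 N hN a hdeg hsq hcop).2.2
    (fun e => ∏ r, ((ℓ : ℝ) ^ e r) ^ c r)
    (fun e e' h => by
      apply Finset.prod_le_prod
      · intro r _
        positivity
      · intro r _
        exact pow_le_pow_left₀ (by positivity) (pow_le_pow_right₀ hl1 (h r)) _)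
    (fun e => by positivity) 1 C (fun e => by
      rw [one_mul]
      apply Finset.prod_le_prod
      · intro r _
        positivity
      · intro r _
        exact pow_le_pow_right₀ (one_le_pow₀ hl1) (hC r)) ε hε
  filter_upwards [h6] with m hm ho
  have h7 := hm ho
  rw [Ex, (hasSum_prod_mom (ℓ := ℓ) c).tsum_eq] at h7
  refine le_trans ?_ h7
  letI : Fintype k := Fintype.ofFinite k
  have hfin : (twm a m).Finite := by
    refine Set.Finite.subset (Finset.finite_toSet (Pool.Agent.Y164.PS.Sf k m)) ?_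
    rintro E ⟨a1, a2, a3, -⟩
    exact Pool.Agent.Y164.PS.mem_Sf.2 ⟨a1, a2, a3⟩
  rw [finsum_mem_eq_finite_toFinset_sum _ hfin, finsum_mem_eq_finite_toFinset_sum _ hfin]
  apply sum_le_sum
  intro E _
  rw [GG]
  apply Finset.prod_le_prod
  · intro r _
    positivity
  · intro r _
    apply pow_le_pow_left₀ (by positivity)
    exact_mod_cast Nat.le_pow_clog hl1' _

/-- the logarithm for odd primes -/
theorem final_log (r0 : R) (ε : ℝ) (hε : 0 < ε) :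
    ∀ᶠ m : ℕ in atTop, (∀ r, ¬ ℓ ∣ m + n r * N r) →
      ∑ᶠ E ∈ twm a m, (Nat.clog ℓ (sz ℓ (cur K (a r0) E) (zK hζ' K) k[X]) : ℝ) ≤
        (rho ℓ + ε) * ((twm a m).ncard : ℝ) := by
  haveI : Fact ℓ.Prime := ⟨hℓ⟩
  have hl := hℓ.two_le
  have hl1 : (1 : ℝ) ≤ ℓ := by exact_mod_cast hℓ.one_lt.le
  have h6 := (final_f hℓ hl2 h2 hζ hζ' K hn hn3 N hN a hdeg hsq hcop).2.2
    (fun e => (e r0 : ℝ)) (fun e e' h => by
      have := h r0
      show (e r0 : ℝ) ≤ (e' r0 : ℝ)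
      exact_mod_cast this)
    (fun e => Nat.cast_nonneg _) 1 1 (fun e => by
      simp only [pow_one, one_mul]
      rw [prod_pow_eq_pow_sum]
      have h3 : e r0 ≤ ∑ r, e r :=
        single_le_sum (f := e) (fun _ _ => Nat.zero_le _) (mem_univ r0)
      have h4 := Nat.lt_pow_self hℓ.one_lt (n := ∑ r, e r)
      exact_mod_cast (h3.trans h4.le)) ε hε
  filter_upwards [h6] with m hm ho
  have h7 := hm ho
  rw [Ex, (hasSum_coord (R := R) hl r0 (g := fun n => (n : ℝ)) (fun n => Nat.cast_nonneg _)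
    (summable_rho hl).hasSum).tsum_eq] at h7
  exact h7

end fin

end Pool.Agent.Q269.OL
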