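import Pool.Agent.Q269.OL.Cx
import Pool.Agent.Q269.OL.Bnd
import Pool.Agent.Q269.AV.A2
import Pool.Agent.Y43.SZ2.Eqs
import Pool.Agent.Y547.SZ.Comb
import Pool.Agent.Y547.SZ.Kda
import Pool.Agent.Y547.SZ.Rep
import Pool.Agent.Y98.SZ.Adj

/-!
# The mean values for several families of superelliptic curves
-/

set_option autoImplicit false
set_option linter.all false

namespace Pool.Agent.Q269.OL

open Finset Polynomial Filter Topology IsDedekindDomain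
open Pool.Agent.Q269.MF
open Pool.Agent.Q269.AV (XW CEw CellW FW ImpW main_w card_KerP_le enum)
open Pool.Agent.Y164.SZ
open Pool.Agent.Y164.HG (cur)
open Pool.Agent.Y164.PS (Sf mem_Sf Fam)
open Pool.Agent.Y261.SZ (nb_lower)
open scoped Classical

/-- the smallest bound -/
noncomputable def sz (ℓ : ℕ) {K : Type} [Field K] (F : K[X]) {ζ : K} (hζ : ζ ^ ℓ = 1) (R : Type)
    [CommRing R] [IsDedekindDomain R] [Algebra R K] [IsFractionRing R K] : ℕ :=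
  sInf {M | BoundedPhi ℓ F hζ R M}

theorem sz_le {ℓ : ℕ} {K : Type} [Field K] {F : K[X]} {ζ : K} {hζ : ζ ^ ℓ = 1} {R : Type}
    [CommRing R] [IsDedekindDomain R] [Algebra R K] [IsFractionRing R K] {M : ℕ}
    (h : BoundedPhi ℓ F hζ R M) : sz ℓ F hζ R ≤ M := Nat.sInf_le h

theorem sz_bd {ℓ : ℕ} {K : Type} [Field K] {F : K[X]} {ζ : K} {hζ : ζ ^ ℓ = 1} {R : Type}
    [CommRing R] [IsDedekindDomain R] [Algebra R K] [IsFractionRing R K] {M : ℕ}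
    (h : BoundedPhi ℓ F hζ R M) : BoundedPhi ℓ F hζ R (sz ℓ F hζ R) :=
  Nat.sInf_mem (s := {M | BoundedPhi ℓ F hζ R M}) ⟨M, h⟩

section two
variable {ℓ : ℕ} [hℓ : Fact ℓ.Prime] {k : Type} [Field k] [Fintype k] [DecidableEq k]
variable {R : Type} [Fintype R] [DecidableEq R] {n : R → ℕ}
  {a : (r : R) → Fin (n r) → k[X]} {N : R → ℕ} (H : ∀ r, Geo ℓ (a r) (N r))

/-- a function of the logarithms of the smallest bounds -/
noncomputable def GG (ℓ : ℕ) {k : Type} [Field k] {ζ : k} (hζ' : ζ ^ ℓ = 1) (K : Type) [Field K]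
    [Algebra k[X] K] [IsFractionRing k[X] K] {R : Type} {n : R → ℕ}
    (a : (r : R) → Fin (n r) → k[X]) (f : (R → ℕ) → ℝ) (E : k[X]) : ℝ :=
  f fun r => Nat.clog ℓ (sz ℓ (cur K (a r) E) (zK hζ' K) k[X])

theorem imp_b {ζ : k} (hζ : IsPrimitiveRoot ζ ℓ) (hζ' : ζ ^ ℓ = 1) (K : Type) [Field K]
    [Algebra k[X] K] [IsFractionRing k[X] K] (σ : (Σ r, Tau (a r)) → ZMod ℓ) (ι : Type)
    [Fintype ι] (T : ι → k[X])
    (hR : Fam (Sum.elim T (QA a))) (hcl : cla σ (gM (datM H 0)) (QA a) T)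
    (hU : ∀ r, IsUnit (∑ i, ((T i).natDegree : ZMod ℓ) + ((n r : ZMod ℓ) * (N r : ZMod ℓ))))
    (r : R) :
    BoundedPhi ℓ (cur K (a r) (∏ i, T i)) (zK hζ' K) k[X]
      (Nat.card (KerP (datM H σ r) (AT ℓ T) (BT ℓ (Qr (QA a) r) T)
        (fun i => ((T i).natDegree : ZMod ℓ)))) :=
  imp_bound (H r) Pool.Agent.Y547.SZ.Rep.t Pool.Agent.Y98.SZ.Adj.t Pool.Agent.Y547.SZ.t_kda
    (Pool.Agent.Y43.SZ2.e1 Pool.Agent.Y547.SZ.Rep.t)
    (Pool.Agent.Y43.SZ2.e2 Pool.Agent.Y547.SZ.Rep.t) hζ hζ' (fun s => σ ⟨r, s⟩) ι T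
    (Fam_res hR r) (fun s => hcl ⟨r, s⟩) (hU r)

theorem imp_f {ζ : k} (hζ : IsPrimitiveRoot ζ ℓ) (hζ' : ζ ^ ℓ = 1) (K : Type) [Field K]
    [Algebra k[X] K] [IsFractionRing k[X] K] {f : (R → ℕ) → ℝ} (hf : Monotone f)
    (σ : (Σ r, Tau (a r)) → ZMod ℓ) : ImpW (QA a) σ (gM (datM H 0))
      (fun x => ∀ r, IsUnit (x + ((n r : ZMod ℓ) * (N r : ZMod ℓ))))
      (Ff (datM H σ) (QA a) f) (GG ℓ hζ' K a f) := by
  intro ι _ T hR hcl hU
  rw [GG, Ff]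
  apply hf
  intro r
  have h1 := sz_le (imp_b H hζ hζ' K σ ι T hR hcl hU r)
  have h2 : Nat.card (KerP (datM H σ r) (AT ℓ T) (BT ℓ (Qr (QA a) r) T)
      (fun i => ((T i).natDegree : ZMod ℓ))) =
      ℓ ^ dm (datM H σ) (QA a) ι (fun i => ((T i).natDegree : ZMod ℓ)) T r :=
    card_dm (datM H σ) T r
  rw [h2] at h1
  refine (Nat.clog_mono_right _ h1).trans (le_of_eq ?_)
  exact Nat.clog_pow _ _ hℓ.out.one_lt

theorem Ff_le (D : (r : R) → FDat ℓ (SW ℓ (n r)) (Tau (a r))) {f : (R → ℕ) → ℝ} {C0 : ℝ}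
    (hC0 : 0 ≤ C0) {c : ℕ}
    (hf : ∀ e, f e ≤ C0 * ∏ r, ((ℓ : ℝ) ^ e r) ^ c) (ι : Type) [Fintype ι]
    (d : ι → ZMod ℓ) (T : ι → k[X]) :
    Ff D (QA a) f ι d T ≤ (C0 * ∏ r, ((ℓ : ℝ) ^ Fintype.card (Tau (a r))) ^ c) *
      ((∏ r, Fintype.card (SW ℓ (n r)) ^ c : ℕ) : ℝ) ^ Fintype.card ι := by
  have h1 : Ff D (QA a) f ι d T ≤ C0 * ∏ r, ((ℓ : ℝ) ^ Fintype.card (Tau (a r)) *
      (Fintype.card (SW ℓ (n r)) : ℝ) ^ Fintype.card ι) ^ c := by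
    rw [Ff]
    refine (hf _).trans (mul_le_mul_of_nonneg_left ?_ hC0)
    apply Finset.prod_le_prod
    · intro r _
      positivity
    · intro r _
      apply pow_le_pow_left₀ (by positivity)
      have h3 := card_KerP_le (D r) (AT ℓ T) (BT ℓ (Qr (QA a) r) T) d
      have h4 : Nat.card (KerP (D r) (AT ℓ T) (BT ℓ (Qr (QA a) r) T) d) =
        ℓ ^ dm D (QA a) ι d T r := card_dm D T r
      rw [h4] at h3
      push_cast at h3
      exact h3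
  refine h1.trans (le_of_eq ?_)
  push_cast
  rw [← Finset.prod_pow, mul_assoc, ← prod_mul_distrib]
  congr 1
  refine prod_congr rfl fun r _ => ?_
  rw [mul_pow, ← pow_mul, ← pow_mul, ← pow_mul, mul_comm (Fintype.card ι)]

end two

/-- the mean values for odd primes -/
theorem final_f {ℓ : ℕ} (hℓ : ℓ.Prime) (hl2 : ℓ ≠ 2)
    {k : Type} [Field k] [Finite k] (h2 : (2 : k) ≠ 0) {ζ : k} (hζ : IsPrimitiveRoot ζ ℓ)
    (hζ' : ζ ^ ℓ = 1)
    (K : Type) [Field K] [Algebra k[X] K] [IsFractionRing k[X] K] {R : Type} [Fintype R]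
    {n : R → ℕ} (hn : ∀ r, ¬ ℓ ∣ n r) (hn3 : ∀ r, 3 ≤ n r) (N : R → ℕ) (hN : ∀ r, 1 ≤ N r)
    (a : (r : R) → Fin (n r) → k[X])
    (hdeg : ∀ r i j, i ≠ j → (a r i - a r j).natDegree = N r)
    (hsq : ∀ r, Squarefree (Pool.Agent.Y164.HG.Del (a r)))
    (hcop : ∀ r r', r ≠ r' → IsCoprime (Pool.Agent.Y164.HG.Del (a r))
      (Pool.Agent.Y164.HG.Del (a r'))) :
    (∃ c : ℝ, 0 < c ∧ ∀ᶠ m : ℕ in atTop, c * (Nat.card k : ℝ) ^ m ≤ ((twm a m).ncard : ℝ)) ∧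
    (∀ m : ℕ, (∀ r, ¬ ℓ ∣ m + n r * N r) → ∀ E ∈ twm a m, ∀ r,
      BoundedPhi ℓ (cur K (a r) E) (zK hζ' K) k[X] (sz ℓ (cur K (a r) E) (zK hζ' K) k[X])) ∧
    ∀ f : (R → ℕ) → ℝ, Monotone f → (∀ e, 0 ≤ f e) → ∀ (C0 : ℝ) (c : ℕ),
      (∀ e, f e ≤ C0 * ∏ r, ((ℓ : ℝ) ^ e r) ^ c) →
      ∀ ε : ℝ, 0 < ε → ∀ᶠ m : ℕ in atTop, (∀ r, ¬ ℓ ∣ m + n r * N r) →
      ∑ᶠ E ∈ twm a m, GG ℓ hζ' K a f E ≤ (Ex ℓ f + ε) * ((twm a m).ncard : ℝ) := by
  haveI : Fact ℓ.Prime := ⟨hℓ⟩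
  letI : Fintype k := Fintype.ofFinite k
  have hchar : ringChar k ≠ 2 := by
    intro h
    apply h2
    have := ringChar.Nat.cast_ringChar (R := k)
    rw [h] at this
    exact_mod_cast this
  have hcard : Nat.card k = Fintype.card k := Nat.card_eq_fintype_card
  have hlk : ℓ ∣ Fintype.card k - 1 := by
    have hu : IsPrimitiveRoot (hζ.isUnit hℓ.ne_zero).unit ℓ :=
      IsPrimitiveRoot.coe_units_iff.1 (by simpa using hζ)
    have h3 : orderOf (hζ.isUnit hℓ.ne_zero).unit = ℓ := hu.eq_orderOf.symm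
    rw [← h3, ← Fintype.card_units]
    exact orderOf_dvd_card
  have hl3 : 3 ≤ ℓ := by
    have := hℓ.two_le
    omega
  have hq1 : 1 < Fintype.card k := Fintype.one_lt_card
  have hq : 4 ≤ Fintype.card k := by
    have := Nat.le_of_dvd (by omega) hlk
    omega
  have hlk0 : ((ℓ : ℕ) : k) ≠ 0 := by
    intro h
    obtain ⟨r, hr⟩ := hlk
    have h1 : ((Fintype.card k - 1 : ℕ) : k) = 0 := by rw [hr, Nat.cast_mul, h, zero_mul]
    rw [Nat.cast_sub hq1.le, FiniteField.cast_card_eq_zero, Nat.cast_one, zero_sub] at h1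
    exact one_ne_zero (neg_eq_zero.1 h1)
  have S : SYM0 ℓ k := Pool.Agent.Y37.SZ.t ℓ k hl2 hlk
  have S' : SYM ℓ k := ⟨S, Pool.Agent.Y287.SZ.Chr.t ℓ k hl2 hlk hchar S⟩
  have H : ∀ r, Geo ℓ (a r) (N r) := fun r =>
    ⟨S, Pool.Agent.Y547.SZ.t_comb, hl2, hlk0, hn r, hn3 r, hN r, hdeg r, hsq r⟩
  have hF : Fam (QA a) := QA_fam H hcop
  have hcN : (Nat.card k : ℝ) = (Fintype.card k : ℝ) := by rw [hcard]
  have e0 : ∀ m, twm a m = (((Sf k m).filter (nb (QA a)) : Finset k[X]) : Set k[X]) := by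
    intro m
    ext E
    rw [Finset.mem_coe, mem_filter, mem_Sf]
    show (_ ∧ _ ∧ _ ∧ _) ↔ _
    constructor
    · rintro ⟨a1, a2, a3, a4⟩
      exact ⟨⟨a1, a2, a3⟩, (nbm_iff H a1).2 a4⟩
    · rintro ⟨⟨a1, a2, a3⟩, a4⟩
      exact ⟨a1, a2, a3, (nbm_iff H a1).1 a4⟩
  have e1 : ∀ m, (twm a m).ncard = ((Sf k m).filter (nb (QA a))).card := by
    intro m
    rw [e0, Set.ncard_coe_finset]
  have hunit : ∀ m : ℕ, (∀ r, ¬ ℓ ∣ m + n r * N r) →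
      ∀ r, IsUnit ((m : ZMod ℓ) + (n r : ZMod ℓ) * (N r : ZMod ℓ)) := by
    intro m ho r
    rw [isUnit_iff_ne_zero]
    intro h
    apply ho r
    rw [← ZMod.natCast_eq_zero_iff]
    push_cast
    exact h
  refine ⟨?_, ?_, ?_⟩
  · obtain ⟨c, hc, h⟩ := nb_lower hF hchar hq
    refine ⟨c, hc, ?_⟩
    filter_upwards [h] with m hm
    rw [e1, hcN]
    exact hm
  · intro m ho E hE r
    rw [e0, Finset.mem_coe, mem_filter] at hE
    obtain ⟨h1, h2', h3⟩ := enum hF hE.1 hE.2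
    obtain ⟨σ, hσ⟩ : ∃ σ : (Σ r, Tau (a r)) → ZMod ℓ,
      σ = fun s => -(L ℓ E (QA a s) + gM (datM H 0) s) := ⟨_, rfl⟩
    have h4 : gcla σ (gM (datM H 0)) (QA a) E := by
      intro s
      rw [hσ]
      ring
    have h5 : cla σ (gM (datM H 0)) (QA a)
        (fun i : {P // P ∈ Pool.Agent.Y164.PS.pf E} => i.1) := by
      rw [cla_iff' S' hF h3 (by rw [h2']; exact hE.2), h2']
      exact h4
    have h6 : ∑ i : {P // P ∈ Pool.Agent.Y164.PS.pf E}, ((i.1.natDegree : ℕ) : ZMod ℓ) =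
        (m : ZMod ℓ) := by
      rw [← (Pool.Agent.Y164.PS.mem_Tp.1 h3).2]
      push_cast
      rfl
    have h7 := imp_b H hζ hζ' K σ {P // P ∈ Pool.Agent.Y164.PS.pf E} (fun i => i.1) h1 h5
      (fun r => by rw [h6]; exact hunit m ho r) r
    rw [h2'] at h7
    exact sz_bd h7
  intro f hfm hf0 C0 c hf ε hε
  have hC0 : 0 ≤ C0 := by
    have h3 := (hf0 (fun _ => 0)).trans (hf (fun _ => 0))
    simpa using h3
  have hcell : ∀ σ : (Σ r, Tau (a r)) → ZMod ℓ, ∀ δ : ℝ, 0 < δ →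
      CellW (QA a) σ (gM (datM H 0)) (fun x => ∀ r, IsUnit (x + ((n r : ZMod ℓ) * (N r : ZMod ℓ))))
        (Ff (datM H σ) (QA a) f) (Ex ℓ f + δ) := by
    intro σ δ hδ
    exact cell_f (datM H σ) (Q := QA a) hl2 (fun r =>
        card_W_ge ((H r).conn (fun s => σ ⟨r, s⟩))) (fun r => by
        have hc := (H r).conn (fun s => σ ⟨r, s⟩)
        exact { nd := hc.nd, nb := fun s => ⟨s, hc.ne s⟩, conn := hc.conn,
                nonempty := hc.nonempty, two := fun h => absurd h hl2 })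
      (fun _ ι _ d h => absurd h hl2) hf0 hf hδ
  have hw1 : 1 ≤ ∏ r, Fintype.card (SW ℓ (n r)) ^ c := by
    apply Nat.one_le_iff_ne_zero.2
    apply Finset.prod_ne_zero_iff.2
    intro r _
    have h3 : 2 ≤ Fintype.card (SW ℓ (n r)) := card_W_ge ((H r).conn (fun _ => 0))
    exact pow_ne_zero _ (by omega)
  have hE0 : 0 ≤ Ex ℓ f := tsum_nonneg fun e =>
    mul_nonneg (hf0 e) (prod_nonneg fun r _ => (lw_pos hℓ.two_le _).le)
  have hmain := main_w S' hF hchar hq (U := fun x => ∀ r, IsUnit (x +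
    ((n r : ZMod ℓ) * (N r : ZMod ℓ)))) (G := GG ℓ hζ' K a f)
    (FF := fun σ => Ff (datM H σ) (QA a) f) (fun σ => imp_f H hζ hζ' K hfm σ)
    (C0 := C0 * ∏ r, ((ℓ : ℝ) ^ Fintype.card (Tau (a r))) ^ c) (by positivity)
    (w0 := ∏ r, Fintype.card (SW ℓ (n r)) ^ c) hw1
    (fun σ ι _ d T => Ff_le (datM H σ) hC0 hf ι d T) hE0 hcell ε hε
  filter_upwards [hmain] with m hm ho
  have h4 := hm (hunit m ho)
  rw [e1, e0, finsum_mem_coe_finset]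
  exact h4

end Pool.Agent.Q269.OL
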