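import Pool.Agent.Q269.OL.Rep
import Pool.Agent.Y164.SZ.Fin

/-!
# The number of the Selmer classes modulo the torsion points is at most the order of the kernel
-/

set_option autoImplicit false
set_option linter.all false

open Polynomial IsDedekindDomain
open scoped Classical

namespace Pool.Agent.Q269.OL

open Finset
open Pool.Agent.Y164.SZ
open Pool.Agent.Y713.SE.Dat (au)
open Pool.Agent.Y164.PS (Fam)

section abs
variable {ℓ : ℕ} {W : Type} [AddCommGroup W] [Module (ZMod ℓ) W]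
variable {ι τ : Type} [Fintype ι] [Fintype τ] (D : FDat ℓ W τ) (A : ι → ι → ZMod ℓ)
  (B : ι → τ → ZMod ℓ) (d : ι → ZMod ℓ)

theorem TT_sub (y y' : W) : (TT D (y - y') : V ℓ W ι τ) = TT D y - TT D y' := by
  refine Prod.ext rfl (funext fun s => ?_)
  show D.om (y - y') (D.t s) = D.om y (D.t s) - D.om y' (D.t s)
  rw [map_sub, LinearMap.sub_apply]

theorem dg_sub (w w' : V ℓ W ι τ) : dg D d (w - w') = dg D d w - dg D d w' := by
  have h := (dgL D d).map_sub w w'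
  rwa [dgL_apply, dgL_apply, dgL_apply] at h

theorem dg_smul' (c : ZMod ℓ) (w : V ℓ W ι τ) : dg D d (c • w) = c • dg D d w := by
  have h := (dgL D d).map_smul c w
  rwa [dgL_apply, dgL_apply] at h

/-- the correction -/
noncomputable def cy (u : (ZMod ℓ)ˣ) (w : V ℓ W ι τ) : W := (↑u⁻¹ : ZMod ℓ) • dg D d w

theorem dg_cy {u : (ZMod ℓ)ˣ} (hu : (u : ZMod ℓ) = ∑ i, d i + D.N) (w : V ℓ W ι τ) :
    dg D d (w - TT D (cy D d u w)) = 0 := by
  rw [dg_sub, dg_TT, ← hu, cy, smul_smul, Units.mul_inv, one_smul, sub_self]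

/-- the form at the vector corrected by a torsion vector -/
theorem FF_corr (hcl : ∀ s, D.sp s + ∑ i, B i s + D.g s = 0) (w : V ℓ W ι τ) (x0 : W)
    (h1 : ∀ i, E1 D A B d w x0 i = 0) (h2 : ∀ s, E2 D B w x0 s = 0) (y : W)
    (w' : V ℓ W ι τ) : FF D A B d (w - TT D y) w' = - D.om (x0 - - D.ks y) (dg D d w') := by
  have k1 : ∀ i, E1 D A B d (w - TT D y) (x0 - - D.ks y) i = 0 := fun i => by
    rw [E1_sub, h1, E1_TT, sub_zero]
  have k2 : ∀ s, E2 D B (w - TT D y) (x0 - - D.ks y) s = 0 := fun s => by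
    rw [E2_sub, h2, E2_TT D B hcl, sub_zero]
  exact FF_eq D A B d _ _ k1 k2 w'

theorem ks_sub (x y : W) : D.ks (x - y) = D.ks x - D.ks y := by
  have h := D.ks_add (x - y) y
  rw [sub_add_cancel] at h
  rw [h, add_sub_cancel_right]

/-- two vectors with the same image in the kernel differ by a torsion vector -/
theorem corr_eq (hcl : ∀ s, D.sp s + ∑ i, B i s + D.g s = 0) {u : (ZMod ℓ)ˣ}
    (hu : (u : ZMod ℓ) = ∑ i, d i + D.N)
    {w w' : V ℓ W ι τ} {x0 x0' : W}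
    (h1 : ∀ i, E1 D A B d w x0 i = 0) (h2 : ∀ s, E2 D B w x0 s = 0)
    (h1' : ∀ i, E1 D A B d w' x0' i = 0) (h2' : ∀ s, E2 D B w' x0' s = 0)
    (he : w - TT D (cy D d u w) = w' - TT D (cy D d u w')) :
    w - w' = TT D (cy D d u w - cy D d u w') ∧ x0 - x0' = - D.ks (cy D d u w - cy D d u w') := by
  constructor
  · rw [TT_sub]
    rw [sub_eq_sub_iff_add_eq_add] at he ⊢
    rw [he, add_comm]
  · have h3 : (x0 - - D.ks (cy D d u w)) - (x0' - - D.ks (cy D d u w')) = 0 := by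
      apply D.nd
      intro z
      have e1 := FF_corr D A B d hcl w x0 h1 h2 (cy D d u w) (TT D ((↑u⁻¹ : ZMod ℓ) • z))
      have e2 := FF_corr D A B d hcl w' x0' h1' h2' (cy D d u w') (TT D ((↑u⁻¹ : ZMod ℓ) • z))
      rw [dg_TT, ← hu, smul_smul, Units.mul_inv, one_smul] at e1 e2
      rw [he, e2] at e1
      rw [map_sub, LinearMap.sub_apply, sub_eq_zero]
      exact (neg_injective e1).symm
    rw [ks_sub]
    have h4 : x0 - x0' = (x0 - - D.ks (cy D d u w)) - (x0' - - D.ks (cy D d u w')) +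
        (- D.ks (cy D d u w) - - D.ks (cy D d u w')) := by abel
    rw [h4, h3]
    abel

end abs

section
variable {ℓ : ℕ} [hℓ : Fact ℓ.Prime]
variable {k K : Type} [Field k] [Fintype k] [DecidableEq k] [Field K] [Algebra k[X] K]
  [IsFractionRing k[X] K]
variable {n : ℕ} {a : Fin n → k[X]} {N : ℕ} (H : Geo ℓ a N)
variable {ι : Type} [Fintype ι] {T : ι → k[X]}

theorem cl_PT_pow {F : Type} [Field F] (D : Pool.Agent.Y713.SE.Dat ℓ n F) (m : Fin n → ℕ) :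
    Pool.Agent.Y713.SE.cl (D.PT m) ^ ℓ = 1 := by
  rw [D.cl_PT, ← Finset.prod_pow]
  apply Finset.prod_eq_one
  intro k _
  rw [← pow_mul, mul_comm, pow_mul, D.cl_PP_pow, one_pow]

theorem cl_PT_div {F : Type} [Field F] (D : Pool.Agent.Y713.SE.Dat ℓ n F) (m m' : Fin n → ℕ) :
    Pool.Agent.Y713.SE.cl (D.PT (fun i => m i + (ℓ - 1) * m' i)) =
      Pool.Agent.Y713.SE.cl (D.PT m) / Pool.Agent.Y713.SE.cl (D.PT m') := by
  have h1 : Pool.Agent.Y713.SE.cl (D.PT (fun i => m i + (ℓ - 1) * m' i)) =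
      Pool.Agent.Y713.SE.cl (D.PT m) * Pool.Agent.Y713.SE.cl (D.PT m') ^ (ℓ - 1) := by
    rw [D.cl_PT, D.cl_PT, D.cl_PT]
    simp only [pow_add, Finset.prod_mul_distrib, ← Finset.prod_pow, ← pow_mul]
    congr 1
    exact Finset.prod_congr rfl fun i _ => by rw [mul_comm]
  have h2 := cl_PT_pow D m'
  have h3 : ℓ - 1 + 1 = ℓ := Nat.sub_add_cancel hℓ.out.one_lt.le
  rw [h1, eq_div_iff_mul_eq', mul_assoc, ← pow_succ, h3, h2, mul_one]

theorem coc_div {E : Type} [Field E] [Algebra K E] {D0 : Pool.Agent.Y713.SE.Dat ℓ n K}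
    {χ χ' : (E ≃ₐ[K] E) → Fin n → ℕ}
    (hc : D0.Coc (fun τ => Pool.Agent.Y713.SE.cl ((D0.base E).PT (χ τ))))
    (hc' : D0.Coc (fun τ => Pool.Agent.Y713.SE.cl ((D0.base E).PT (χ' τ)))) :
    D0.Coc (fun τ => Pool.Agent.Y713.SE.cl ((D0.base E).PT
      (fun i => χ τ i + (ℓ - 1) * χ' τ i))) := by
  have he : (fun τ => Pool.Agent.Y713.SE.cl ((D0.base E).PT
      (fun i => χ τ i + (ℓ - 1) * χ' τ i))) =
      fun τ => Pool.Agent.Y713.SE.cl ((D0.base E).PT (χ τ)) /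
        Pool.Agent.Y713.SE.cl ((D0.base E).PT (χ' τ)) :=
    funext fun τ => cl_PT_div _ _ _
  rw [he]
  refine ⟨hc.1.comp₂ hc'.1 (fun a b => a / b), fun σ τ => ?_⟩
  show Pool.Agent.Y713.SE.cl ((D0.base E).PT (χ (σ * τ))) /
    Pool.Agent.Y713.SE.cl ((D0.base E).PT (χ' (σ * τ))) = _
  have h1 := hc.2 σ τ
  have h2 := hc'.2 σ τ
  simp only at h1 h2
  rw [h1, h2, _root_.map_div]
  exact mul_div_mul_comm _ _ _ _

include H in
/-- the pigeonhole principle for the classes -/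
theorem crit_pig (hREP : S_REP) (hADJ : S_ADJ) (hKDA : S_KDA) (hE1 : S_E1) (hE2 : S_E2)
    (hR : Fam (RR a T)) (D0 : Pool.Agent.Y713.SE.Dat ℓ n K)
    (hδ : D0.δ = algebraMap k[X] K (∏ i, T i)) (he : ∀ i, D0.e i = algebraMap k[X] K (a i))
    (σ : Tau a → ZMod ℓ) (hcl : cl (H.dat σ) (QQ a) T)
    (hpar : IsUnit (∑ i, ((T i).natDegree : ZMod ℓ) + (H.dat σ).N))
    {E : Type} [Field E] [Algebra K E] [IsGalois K E] [IsSepClosed E] {p : ℕ} [ExpChar E p]
    (Ω : HeightOneSpectrum k[X] → Type) [∀ v, Field (Ω v)]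
    [∀ v, Algebra (v.adicCompletion K) (Ω v)] [∀ v, Algebra K (Ω v)]
    [∀ v, IsScalarTower K (v.adicCompletion K) (Ω v)] [∀ v, IsSepClosed (Ω v)]
    [∀ v, IsGalois (v.adicCompletion K) (Ω v)] [∀ v, ExpChar (Ω v) p]
    {I : Type} [Fintype I] (χ : I → (E ≃ₐ[K] E) → Fin n → ℕ)
    (hc : ∀ i, D0.Coc (fun τ => Pool.Agent.Y713.SE.cl ((D0.base E).PT (χ i τ))))
    (ht : ∀ i, ∀ v, D0.Triv (v.adicCompletion K) (Ω v)
      (fun τ => Pool.Agent.Y713.SE.cl ((D0.base E).PT (χ i τ))))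
    (hcard : Nat.card (KerP (H.dat σ) (AT ℓ T) (BT ℓ (QQ a) T)
      (fun i => ((T i).natDegree : ZMod ℓ))) < Fintype.card I) :
    ∃ i j, i ≠ j ∧ ∃ (m : Fin n → ℕ) (Q : ClassGroup (D0.base E).A),
      Pool.Agent.Y713.SE.cl ((D0.base E).PT m) * (D0.base E).sC Q = Q ∧
      ∀ τ, Pool.Agent.Y713.SE.cl ((D0.base E).PT (χ i τ)) /
        Pool.Agent.Y713.SE.cl ((D0.base E).PT (χ j τ)) = D0.mC (au τ) Q / Q := by
  have h0 := fun i => crit_rep (p := p) H hREP hADJ hKDA hE1 hE2 hR D0 hδ he σ hcl Ω (χ i) (hc i)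
    (ht i)
  choose w x0 hrep h1 h2 using h0
  obtain ⟨u, hu⟩ := hpar
  let f : I → KerP (H.dat σ) (AT ℓ T) (BT ℓ (QQ a) T) (fun i => ((T i).natDegree : ZMod ℓ)) :=
    fun i => ⟨w i - TT (H.dat σ) (cy (H.dat σ) (fun i => ((T i).natDegree : ZMod ℓ)) u (w i)),
      dg_cy _ _ hu _, fun w' hw' => by
        rw [FF_corr (H.dat σ) _ _ _ hcl (w i) (x0 i) (h1 i) (h2 i), hw', map_zero, neg_zero]⟩
  obtain ⟨i, j, hij, hf⟩ : ∃ i j, i ≠ j ∧ f i = f j := by
    by_contra hno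
    push Not at hno
    have hinj : Function.Injective f := by
      intro i j h
      by_contra hne
      exact hno i j hne h
    have h3 := Nat.card_le_card_of_injective f hinj
    rw [Nat.card_eq_fintype_card] at h3
    omega
  have h5 := congrArg Subtype.val hf
  obtain ⟨e1, e2⟩ := corr_eq (H.dat σ) _ _ _ hcl hu (h1 i) (h2 i) (h1 j) (h2 j) h5
  obtain ⟨m, Q, hQ, hQ'⟩ := RepV.glob H hREP hADJ hR D0 hδ he σ (p := p) (coc_div (hc i) (hc j))
    ((hrep i).sub H (hrep j)) _ e1 e2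
  exact ⟨i, j, hij, m, Q, hQ, fun τ => by rw [← cl_PT_div]; exact hQ' τ⟩

end

end Pool.Agent.Q269.OL
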