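import Pool.Agent.Y43.SZ2.Crit
import Pool.Agent.Y43.SZ2.Eqs

/-!
# The Selmer classes and the kernel: odd primes

The classes which are trivial at the places are represented by vectors; the representation is additive.
-/

set_option autoImplicit false
set_option linter.all false

open Polynomial IsDedekindDomain
open scoped Classical

namespace Pool.Agent.Q269.OL

open Finset
open Pool.Agent.Y164.SZ
open Pool.Agent.Y43.SZ2
open Pool.Agent.Y713.SE (hp Pw mem_hp eq_hp val_hp_self not_pw_exp val_eq_one_iff val_C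
  exists_gen)
open Pool.Agent.Y713.SE.Dat (au)
open Pool.Agent.Y164.PS (Fam)

section
variable {ℓ : ℕ} [hℓ : Fact ℓ.Prime]
variable {k K : Type} [Field k] [Fintype k] [DecidableEq k] [Field K] [Algebra k[X] K]
  [IsFractionRing k[X] K]
variable {n : ℕ} {a : Fin n → k[X]} {N : ℕ} (H : Geo ℓ a N)
variable {ι : Type} [Fintype ι] {T : ι → k[X]}

/-- the class is represented by a vector -/
def RepV (T : ι → k[X]) {E : Type} [Field E] [Algebra K E] (D0 : Pool.Agent.Y713.SE.Dat ℓ n K)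
    (χ : (E ≃ₐ[K] E) → Fin n → ℕ) (w : V ℓ (SW ℓ n) ι (Tau a)) (x0 : SW ℓ n) : Prop :=
  ∃ (kd : D0.KD χ) (mi : Fin n → K), (∀ i, mi i ≠ 0) ∧
    (∀ i j, ∃ z : K, z ≠ 0 ∧ mi i = z ^ ℓ * (kd.d i j * mi j)) ∧
    ∀ i, IsRep ℓ (RR a T) (mi i) (x0.1 i) (uu H.p H.q w i)

/-- the product of two Kummer data -/
noncomputable def kdMul {E : Type} [Field E] [Algebra K E] (D0 : Pool.Agent.Y713.SE.Dat ℓ n K)
    {χ χ' : (E ≃ₐ[K] E) → Fin n → ℕ} (kd : D0.KD χ) (kd' : D0.KD χ') :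
    D0.KD (fun τ i => χ τ i + χ' τ i) where
  θ := fun i j => kd.θ i j * kd'.θ i j
  d := fun i j => kd.d i j * kd'.d i j
  h0 := fun i j => mul_ne_zero (kd.h0 i j) (kd'.h0 i j)
  hθ := fun σ i j => by
    have h1 := kd.hθ σ i j
    have h2 := kd'.hθ σ i j
    rw [pow_add, pow_add, map_mul]
    calc (D0.base E).ζ ^ χ σ j * (D0.base E).ζ ^ χ' σ j * (σ (kd.θ i j) * σ (kd'.θ i j)) =
        ((D0.base E).ζ ^ χ σ j * σ (kd.θ i j)) * ((D0.base E).ζ ^ χ' σ j * σ (kd'.θ i j)) := by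
          ring
      _ = _ := by rw [h1, h2]; ring
  hd := fun i j => by rw [mul_pow, kd.hd, kd'.hd, map_mul]

/-- the power of Kummer data -/
noncomputable def kdPow {E : Type} [Field E] [Algebra K E] (D0 : Pool.Agent.Y713.SE.Dat ℓ n K)
    {χ : (E ≃ₐ[K] E) → Fin n → ℕ} (kd : D0.KD χ) (c : ℕ) :
    D0.KD (fun τ i => c * χ τ i) where
  θ := fun i j => kd.θ i j ^ c
  d := fun i j => kd.d i j ^ c
  h0 := fun i j => pow_ne_zero _ (kd.h0 i j)
  hθ := fun σ i j => by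
    have h1 := kd.hθ σ i j
    rw [map_pow, mul_comm c, mul_comm c, pow_mul, pow_mul, ← mul_pow, h1, mul_pow]
  hd := fun i j => by rw [← pow_mul, mul_comm, pow_mul, kd.hd, map_pow]

theorem uu_sub (p q : Tau a → Fin n) (w w' : V ℓ (SW ℓ n) ι (Tau a)) (i : Fin n) (x : ι ⊕ Tau a) :
    uu p q (w - w') i x = uu p q w i x - uu p q w' i x := by
  rcases x with x | s
  · rfl
  · show (w.2 s - w'.2 s) * tf ℓ (p s) (q s) i = w.2 s * tf ℓ (p s) (q s) i -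
      w'.2 s * tf ℓ (p s) (q s) i
    ring

theorem RepV.sub {E : Type} [Field E] [Algebra K E] {D0 : Pool.Agent.Y713.SE.Dat ℓ n K}
    {χ χ' : (E ≃ₐ[K] E) → Fin n → ℕ} {w w' : V ℓ (SW ℓ n) ι (Tau a)} {x0 x0' : SW ℓ n}
    (h : RepV H T D0 χ w x0) (h' : RepV H T D0 χ' w' x0') :
    RepV H T D0 (fun τ i => χ τ i + (ℓ - 1) * χ' τ i) (w - w') (x0 - x0') := by
  obtain ⟨kd, mi, h1, h2, h3⟩ := h
  obtain ⟨kd', mi', h1', h2', h3'⟩ := h'
  have hm1 : ((ℓ - 1 : ℕ) : ZMod ℓ) = -1 := by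
    rw [Nat.cast_sub hℓ.out.one_lt.le, Nat.cast_one, ZMod.natCast_self, zero_sub]
  refine ⟨kdMul D0 kd (kdPow D0 kd' (ℓ - 1)), fun i => mi i * mi' i ^ (ℓ - 1),
    fun i => mul_ne_zero (h1 i) (pow_ne_zero _ (h1' i)), ?_, ?_⟩
  · intro i j
    obtain ⟨z, hz, e⟩ := h2 i j
    obtain ⟨z', hz', e'⟩ := h2' i j
    refine ⟨z * z' ^ (ℓ - 1), mul_ne_zero hz (pow_ne_zero _ hz'), ?_⟩
    show mi i * mi' i ^ (ℓ - 1) = (z * z' ^ (ℓ - 1)) ^ ℓ *
      (kd.d i j * kd'.d i j ^ (ℓ - 1) * (mi j * mi' j ^ (ℓ - 1)))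
    rw [e', mul_pow, mul_pow, mul_pow, ← pow_mul, ← pow_mul, mul_comm ℓ (ℓ - 1)]
    nth_rewrite 1 [e]
    ring
  · intro i
    refine ((h3 i).mul H.S ((h3' i).pow H.S (ℓ - 1))).congr ?_ fun x => ?_
    · rw [hm1]
      show x0.1 i + -1 * x0'.1 i = x0.1 i - x0'.1 i
      ring
    · rw [hm1, uu_sub]
      ring

include H in
theorem crit_rep (hREP : S_REP) (hADJ : S_ADJ) (hKDA : S_KDA) (hE1 : S_E1) (hE2 : S_E2)
    (hR : Fam (RR a T)) (D0 : Pool.Agent.Y713.SE.Dat ℓ n K)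
    (hδ : D0.δ = algebraMap k[X] K (∏ i, T i)) (he : ∀ i, D0.e i = algebraMap k[X] K (a i))
    (σ : Tau a → ZMod ℓ) (hcl : cl (H.dat σ) (QQ a) T)
    {E : Type} [Field E] [Algebra K E] [IsGalois K E] [IsSepClosed E] {p : ℕ} [ExpChar E p]
    (Ω : HeightOneSpectrum k[X] → Type) [∀ v, Field (Ω v)]
    [∀ v, Algebra (v.adicCompletion K) (Ω v)] [∀ v, Algebra K (Ω v)]
    [∀ v, IsScalarTower K (v.adicCompletion K) (Ω v)] [∀ v, IsSepClosed (Ω v)]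
    [∀ v, IsGalois (v.adicCompletion K) (Ω v)] [∀ v, ExpChar (Ω v) p]
    (χ : (E ≃ₐ[K] E) → Fin n → ℕ)
    (hc : D0.Coc (fun τ => Pool.Agent.Y713.SE.cl ((D0.base E).PT (χ τ))))
    (ht : ∀ v, D0.Triv (v.adicCompletion K) (Ω v)
      (fun τ => Pool.Agent.Y713.SE.cl ((D0.base E).PT (χ τ)))) :
    ∃ (w : V ℓ (SW ℓ n) ι (Tau a)) (x0 : SW ℓ n), RepV H T D0 χ w x0 ∧
      (∀ x, E1 (H.dat σ) (AT ℓ T) (BT ℓ (QQ a) T) (fun i => ((T i).natDegree : ZMod ℓ)) w x0 x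
        = 0) ∧
      ∀ s, E2 (H.dat σ) (BT ℓ (QQ a) T) w x0 s = 0 := by
  obtain ⟨kd⟩ := D0.exists_KD hc
  have hn3 := H.hn3
  obtain ⟨i0⟩ : Nonempty (Fin n) := ⟨⟨0, by omega⟩⟩
  obtain ⟨rA, rB, rC, rD⟩ := hREP ℓ k K (ι ⊕ Tau a) (RR a T) hR H.S
  obtain ⟨kd_ne, -, hmm⟩ := hKDA ℓ n K E D0 χ kd
  -- the exponent
  obtain ⟨c, hc1⟩ : ∃ c : ℕ, 1 + (n : ZMod ℓ) * (c : ZMod ℓ) = 0 := by
    refine ⟨(-(n : ZMod ℓ)⁻¹).val, ?_⟩
    rw [ZMod.natCast_zmod_val, mul_neg, mul_inv_cancel₀ (cast_ne H.hn), add_neg_cancel]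
  -- representations
  have hrep0 : ∀ i, ∃ c u, IsRep ℓ (RR a T) (kd.d i i0) c u := by
    intro i
    refine rD _ (kd_ne _ _) ?_
    intro v hv
    refine D0.good_place (p := p) ?_ ?_ (val_ell H v) (ht v) kd i i0
    · intro i j hij
      rw [he, he]
      exact val_sub_one H (fun s => hv (Sum.inr s)) hij
    · rw [hδ]
      exact val_twist_one (fun x => hv (Sum.inl x))
  choose c0 u0 hcu using hrep0
  obtain ⟨mi, hmi⟩ : ∃ mi : Fin n → K, mi = mm D0 c kd i0 := ⟨_, rfl⟩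
  obtain ⟨hmi0', hmir'⟩ := hmm c i0
  have hmi0 : ∀ i, mi i ≠ 0 := fun i => by rw [hmi]; exact hmi0' i
  have hmir : ∀ i j, ∃ z : K, z ≠ 0 ∧ mi i = z ^ ℓ * (kd.d i j * mi j) := by
    intro i j
    rw [hmi]
    exact hmir' i j
  obtain ⟨cc, hcc⟩ : ∃ cc : Fin n → ZMod ℓ, cc = fun i => c0 i + (c : ZMod ℓ) * ∑ j, c0 j :=
    ⟨_, rfl⟩
  obtain ⟨U, hU⟩ : ∃ U : Fin n → (ι ⊕ Tau a) → ZMod ℓ,
      U = fun i x => u0 i x + (c : ZMod ℓ) * ∑ j, u0 j x := ⟨_, rfl⟩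
  have hrep : ∀ i, IsRep ℓ (RR a T) (mi i) (cc i) (U i) := by
    intro i
    rw [hmi, hcc, hU]
    exact (hcu i).mul H.S ((IsRep.prod H.S univ (fun j _ => hcu j)).pow H.S c)
  have hsum : ∀ f : Fin n → ZMod ℓ, ∑ i, (f i + (c : ZMod ℓ) * ∑ j, f j) = 0 := by
    intro f
    rw [sum_add_distrib, sum_const, card_univ, Fintype.card_fin, nsmul_eq_mul]
    linear_combination (∑ j, f j) * hc1
  have hsc : ∑ i, cc i = 0 := by rw [hcc]; exact hsum c0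
  have hsU : ∀ x, ∑ i, U i x = 0 := by
    intro x
    rw [hU]
    exact hsum (fun i => u0 i x)
  -- adjustments
  have hadj : ∀ mv : Fin n → ℕ, ∃ (Q : ClassGroup (D0.base E).A) (χ' : (E ≃ₐ[K] E) → Fin n → ℕ)
      (kd' : D0.KD χ'), Pool.Agent.Y713.SE.cl ((D0.base E).PT mv) * (D0.base E).sC Q = Q ∧
      (∀ τ, Pool.Agent.Y713.SE.cl ((D0.base E).PT (χ' τ)) =
        Pool.Agent.Y713.SE.cl ((D0.base E).PT (χ τ)) / (D0.mC (au τ) Q / Q)) ∧
      ∀ i j, ∃ z : K, z ≠ 0 ∧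
        mi i * Tm D0 mv i = z ^ ℓ * (kd'.d i j * (mi j * Tm D0 mv j)) := by
    intro mv
    obtain ⟨Q, χ', hQ, hχ', hc'⟩ := D0.exists_adj (p := p) mv hc
    obtain ⟨kd'⟩ := D0.exists_KD hc'
    refine ⟨Q, χ', kd', hQ, hχ', fun i j => ?_⟩
    obtain ⟨x, hx, e1⟩ := hADJ ℓ n K D0 E H.hl mv χ χ' kd kd' Q hQ hχ' i j
    obtain ⟨z, hz, e2⟩ := hmir i j
    refine ⟨z / x, div_ne_zero hz hx, ?_⟩
    have hxl : x ^ ℓ ≠ 0 := pow_ne_zero _ hx
    have e3 : mi i * Tm D0 mv i * x ^ ℓ = z ^ ℓ * (kd'.d i j * (mi j * Tm D0 mv j)) := by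
      have e4 : mi i * Tm D0 mv i * x ^ ℓ = z ^ ℓ * (kd.d i j * mi j) * Tm D0 mv i * x ^ ℓ :=
        congrArg (fun y => y * Tm D0 mv i * x ^ ℓ) e2
      rw [e4]
      linear_combination (-(z ^ ℓ * mi j)) * e1
    rw [div_pow, div_mul_eq_mul_div, eq_div_iff hxl]
    exact e3
  have hloc : ∀ (v : HeightOneSpectrum k[X]) (a b d z : K), a = z ^ ℓ * (d * b) →
      (∃ x : v.adicCompletion K, algebraMap K (v.adicCompletion K) d = x ^ ℓ) →
      ∃ x : v.adicCompletion K, algebraMap K (v.adicCompletion K) a =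
        x ^ ℓ * algebraMap K (v.adicCompletion K) b := by
    rintro v a b d z rfl ⟨x, hx⟩
    exact ⟨algebraMap K _ z * x, by rw [map_mul, map_mul, map_pow, hx]; ring⟩
  -- twist places
  have hTl : ∀ x : ι, ∃ mv : Fin n → ℕ, ∀ i j,
      ∃ z : (hp (RR a T (Sum.inl x)) (hR.irr (Sum.inl x))).adicCompletion K,
      algebraMap K _ (mi i * Tm D0 mv i) = z ^ ℓ * algebraMap K _ (mi j * Tm D0 mv j) := by
    intro x
    obtain ⟨v, hv⟩ : ∃ v, v = hp (RR a T (Sum.inl x)) (hR.irr (Sum.inl x)) := ⟨_, rfl⟩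
    have hnot : ∀ s, QQ a s ∉ v.asIdeal := by
      intro s
      rw [hv]
      exact RR_notMem hR (x := Sum.inl x) (y := Sum.inr s) Sum.inr_ne_inl
    obtain ⟨mv, hmv⟩ := D0.twist_place (p := p) (v := v) (Ω := Ω v) (fun i j hij => by
      rw [he, he]
      exact val_sub_one H hnot hij) (by
      rw [hδ, hv]
      have h := val_twist (K := K) (T := T) (fun y => hR.irr (Sum.inl y))
        (fun y => hR.mon (Sum.inl y)) (fun y z h => Sum.inl.inj (hR.inj h)) x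
      have h' : (hp (RR a T (Sum.inl x)) (hR.irr (Sum.inl x))).valuation K
          (algebraMap k[X] K (∏ x, T x)) = WithZero.exp (-1 : ℤ) := h
      rw [h']
      exact not_pw_exp hℓ.out) (val_ell H v) (ht v)
    refine ⟨mv, fun i j => ?_⟩
    obtain ⟨Q, χ', kd', hQ, hχ', hz⟩ := hadj mv
    obtain ⟨z, hz0, e⟩ := hz i j
    rw [← hv]
    exact hloc v _ _ _ z e (hmv Q χ' kd' hQ hχ' i j)
  -- nodes
  have hCl : ∀ s : Tau a, ∃ r : ℕ,
      (∀ i, U i (Sum.inr s) = - (r : ZMod ℓ) * tf ℓ (H.p s) (H.q s) i) ∧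
      ∃ z : (hp (RR a T (Sum.inr s)) (hR.irr (Sum.inr s))).adicCompletion K,
      algebraMap K _ (mi (H.p s) * Tm D0 (fun l => if l = H.q s then r else 0) (H.p s)) =
        z ^ ℓ * algebraMap K _ (mi (H.q s) * Tm D0 (fun l => if l = H.q s then r else 0) (H.q s)) := by
    intro s
    obtain ⟨v, hv⟩ : ∃ v, v = hp (RR a T (Sum.inr s)) (hR.irr (Sum.inr s)) := ⟨_, rfl⟩
    have hv' : v = hp (QQ a s) (H.fam.irr s) := hv
    obtain ⟨c1, hc1, hc2⟩ := third H (H.p s) (H.q s)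
    have hpq : H.p s ≠ H.q s := ne_of_lt (H.lt s)
    obtain ⟨r, hr⟩ := D0.coll_place (p := p) (v := v) (Ω := Ω v) hpq hc1 hc2
      (by
        intro i j hij h1 h2
        rw [he, he, hv']
        exact val_sub_node H s hij h1 h2)
      (by
        rw [he, he, hv', val_sub_pq H s]
        exact exp_lt)
      (by
        rw [he, he, hv', val_sub_pq H s]
        exact not_pw_exp hℓ.out)
      (by
        rw [hδ, hv]
        exact val_twist_one fun x => RR_notMem hR (x := Sum.inr s) (y := Sum.inl x) Sum.inl_ne_inr)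
      (val_ell H v) (ht v)
    obtain ⟨mv, hmv⟩ : ∃ mv : Fin n → ℕ, mv = fun l => if l = H.q s then r else 0 := ⟨_, rfl⟩
    obtain ⟨Q, χ', kd', hQ, hχ', hz⟩ := hadj mv
    have hmq : mv (H.q s) = r := by rw [hmv]; exact if_pos rfl
    have hmp : mv (H.p s) = 0 := by rw [hmv]; exact if_neg hpq
    obtain ⟨k1, k2⟩ := hr mv Q χ' kd' hmq hmp hQ hχ'
    refine ⟨r, ?_, ?_⟩
    · have hT := isRep_Tm (K := K) H hR D0 hδ he mv
      have k3 : ∀ i j, U i (Sum.inr s) + (r : ZMod ℓ) * tf ℓ (H.p s) (H.q s) i =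
          U j (Sum.inr s) + (r : ZMod ℓ) * tf ℓ (H.p s) (H.q s) j := by
        intro i j
        obtain ⟨z, hz0, e⟩ := hz i j
        have hi := (hrep i).mul H.S (hT i)
        have hj := (hrep j).mul H.S (hT j)
        have hB := hj.ne hR
        have h1 := hi.mul H.S (hj.inv H.S hR)
        have e' : mi i * Tm D0 mv i * (mi j * Tm D0 mv j)⁻¹ = z ^ ℓ * kd'.d i j := by
          rw [e, mul_assoc, mul_assoc, mul_inv_cancel₀ hB, mul_one]
        rw [e'] at h1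
        have h2 := rA _ _ _ h1 (Sum.inr s) (by
          rw [← hv, map_mul, map_pow]
          exact (Pw.pow _).mul (k1 i j))
        have h3 : (U i (Sum.inr s) +
            - (tf ℓ (H.p s) (H.q s) i * ((mv (H.p s) : ZMod ℓ) - mv (H.q s)))) +
          - (U j (Sum.inr s) +
            - (tf ℓ (H.p s) (H.q s) j * ((mv (H.p s) : ZMod ℓ) - mv (H.q s)))) = 0 := h2
        rw [hmp, hmq, Nat.cast_zero] at h3
        linear_combination h3
      have k4 := const_zero H.hn (fun i => U i (Sum.inr s) + (r : ZMod ℓ) * tf ℓ (H.p s) (H.q s) i)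
        (by
          rw [sum_add_distrib, hsU, ← mul_sum, tf_sum, mul_zero, add_zero])
        k3
      intro i
      have k5 : U i (Sum.inr s) + (r : ZMod ℓ) * tf ℓ (H.p s) (H.q s) i = 0 := congrFun k4 i
      linear_combination k5
    · rw [← hmv, ← hv]
      obtain ⟨z, hz0, e⟩ := hz (H.p s) (H.q s)
      exact hloc v _ _ _ z e k2
  choose r hr1 hr2 using hCl
  obtain ⟨w, hw⟩ : ∃ w : V ℓ (SW ℓ n) ι (Tau a),
      w = (fun x => ⟨fun i => U i (Sum.inl x), hsU (Sum.inl x)⟩, fun s => - (r s : ZMod ℓ)) :=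
    ⟨_, rfl⟩
  obtain ⟨x0, hx0⟩ : ∃ x0 : SW ℓ n, x0 = ⟨cc, hsc⟩ := ⟨_, rfl⟩
  have hrep' : ∀ i, IsRep ℓ (RR a T) (mi i) (x0.1 i) (uu H.p H.q w i) := by
    intro i
    refine (hrep i).congr (by rw [hx0]) ?_
    rintro (x | s)
    · rw [hw]; rfl
    · rw [hr1, hw]; rfl
  have E1z : ∀ x, E1 (H.dat σ) (AT ℓ T) (BT ℓ (QQ a) T) (fun i => ((T i).natDegree : ZMod ℓ)) w x0 x
      = 0 := by
    intro x
    obtain ⟨mv, hmv⟩ := hTl x
    exact hE1 ℓ k K n a N H ι T hR D0 hδ he σ w x0 mi hrep' x mv hmv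
  have E2z : ∀ s, E2 (H.dat σ) (BT ℓ (QQ a) T) w x0 s = 0 := by
    intro s
    exact hE2 ℓ k K n a N H ι T hR D0 hδ he σ hcl w x0 mi hrep' s (r s) (by rw [hw]) (hr2 s)
  exact ⟨w, x0, ⟨kd, mi, hmi0, hmir, hrep'⟩, E1z, E2z⟩

include H in
/-- the classes which are represented by the vectors of torsion points -/
theorem RepV.glob (hREP : S_REP) (hADJ : S_ADJ) (hR : Fam (RR a T))
    (D0 : Pool.Agent.Y713.SE.Dat ℓ n K)
    (hδ : D0.δ = algebraMap k[X] K (∏ i, T i)) (he : ∀ i, D0.e i = algebraMap k[X] K (a i))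
    (σ : Tau a → ZMod ℓ)
    {E : Type} [Field E] [Algebra K E] [IsGalois K E] [IsSepClosed E] {p : ℕ} [ExpChar E p]
    {χ : (E ≃ₐ[K] E) → Fin n → ℕ}
    (hc : D0.Coc (fun τ => Pool.Agent.Y713.SE.cl ((D0.base E).PT (χ τ))))
    {w : V ℓ (SW ℓ n) ι (Tau a)} {x0 : SW ℓ n} (hrp : RepV H T D0 χ w x0)
    (y : SW ℓ n) (hy1 : w = TT (H.dat σ) y) (hy2 : x0 = - (H.dat σ).ks y) :
    ∃ (m : Fin n → ℕ) (Q : ClassGroup (D0.base E).A),
      Pool.Agent.Y713.SE.cl ((D0.base E).PT m) * (D0.base E).sC Q = Q ∧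
      ∀ τ, Pool.Agent.Y713.SE.cl ((D0.base E).PT (χ τ)) = D0.mC (au τ) Q / Q := by
  obtain ⟨kd, mi, hmi0, hmir, hrep'⟩ := hrp
  obtain ⟨rA, rB, rC, rD⟩ := hREP ℓ k K (ι ⊕ Tau a) (RR a T) hR H.S
  -- adjustments
  have hadj : ∀ mv : Fin n → ℕ, ∃ (Q : ClassGroup (D0.base E).A) (χ' : (E ≃ₐ[K] E) → Fin n → ℕ)
      (kd' : D0.KD χ'), Pool.Agent.Y713.SE.cl ((D0.base E).PT mv) * (D0.base E).sC Q = Q ∧
      (∀ τ, Pool.Agent.Y713.SE.cl ((D0.base E).PT (χ' τ)) =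
        Pool.Agent.Y713.SE.cl ((D0.base E).PT (χ τ)) / (D0.mC (au τ) Q / Q)) ∧
      ∀ i j, ∃ z : K, z ≠ 0 ∧
        mi i * Tm D0 mv i = z ^ ℓ * (kd'.d i j * (mi j * Tm D0 mv j)) := by
    intro mv
    obtain ⟨Q, χ', hQ, hχ', hc'⟩ := D0.exists_adj (p := p) mv hc
    obtain ⟨kd'⟩ := D0.exists_KD hc'
    refine ⟨Q, χ', kd', hQ, hχ', fun i j => ?_⟩
    obtain ⟨x, hx, e1⟩ := hADJ ℓ n K D0 E H.hl mv χ χ' kd kd' Q hQ hχ' i j
    obtain ⟨z, hz, e2⟩ := hmir i j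
    refine ⟨z / x, div_ne_zero hz hx, ?_⟩
    have hxl : x ^ ℓ ≠ 0 := pow_ne_zero _ hx
    have e3 : mi i * Tm D0 mv i * x ^ ℓ = z ^ ℓ * (kd'.d i j * (mi j * Tm D0 mv j)) := by
      have e4 : mi i * Tm D0 mv i * x ^ ℓ = z ^ ℓ * (kd.d i j * mi j) * Tm D0 mv i * x ^ ℓ :=
        congrArg (fun y => y * Tm D0 mv i * x ^ ℓ) e2
      rw [e4]
      linear_combination (-(z ^ ℓ * mi j)) * e1
    rw [div_pow, div_mul_eq_mul_div, eq_div_iff hxl]
    exact e3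
  -- the global comparison
  obtain ⟨m, hm⟩ : ∃ m : Fin n → ℕ, ∀ i, (m i : ZMod ℓ) = y.1 i := by
    refine ⟨fun i => (y.1 i).val, fun i => ?_⟩
    rw [ZMod.natCast_zmod_val]
  obtain ⟨Q, χ', kd', hQ, hχ', hz⟩ := hadj m
  have hT := isRep_Tm (K := K) H hR D0 hδ he m
  have hone : ∀ i, IsRep ℓ (RR a T) (mi i * Tm D0 m i) 0 0 := by
    intro i
    have hmf : (fun j => (m j : ZMod ℓ)) = y.1 := funext hm
    refine ((hrep' i).mul H.S (hT i)).congr ?_ ?_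
    · rw [hmf]
      have h1 : x0.1 i = - H.comb.ksf y.1 i := by rw [hy2]; rfl
      rw [h1, neg_add_cancel]
    · rintro (x | s)
      · show (w.1 x).1 i + - (m i : ZMod ℓ) = 0
        rw [hy1, hm]
        exact add_neg_cancel _
      · show w.2 s * tf ℓ (H.p s) (H.q s) i +
          - (tf ℓ (H.p s) (H.q s) i * ((m (H.p s) : ZMod ℓ) - m (H.q s))) = 0
        have h1 : w.2 s = y.1 (H.p s) - y.1 (H.q s) := by
          rw [hy1]
          exact dot_Tv y _ _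
        rw [h1, hm, hm]
        ring
  have hsq : ∀ i j, ∃ z : K, kd'.d i j = z ^ ℓ := by
    intro i j
    obtain ⟨z, hz0, e⟩ := hz i j
    have hB := (hone j).ne hR
    have h1 := (hone i).mul H.S ((hone j).inv H.S hR)
    have h2 : mi i * Tm D0 m i * (mi j * Tm D0 m j)⁻¹ = z ^ ℓ * kd'.d i j := by
      rw [e, mul_assoc, mul_assoc, mul_inv_cancel₀ hB, mul_one]
    rw [h2] at h1
    have h3 := h1.pow_mul' (z := z⁻¹) (inv_ne_zero hz0)
    have h4 : z⁻¹ ^ ℓ * (z ^ ℓ * kd'.d i j) = kd'.d i j := by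
      rw [← mul_assoc, ← mul_pow, inv_mul_cancel₀ hz0, one_pow, one_mul]
    rw [h4] at h3
    refine rC _ (h3.congr ?_ (fun _ => ?_))
    · rw [neg_zero, add_zero]
    · show (0 : ZMod ℓ) + - 0 = 0
      rw [neg_zero, add_zero]
  refine ⟨m, Q, hQ, fun τ => ?_⟩
  have h2 := hχ' τ
  rw [(D0.base E).cl_PT_of_modEq fun i j => ?_] at h2
  · exact (div_eq_one.1 h2.symm)
  · obtain ⟨z, hz⟩ := hsq i j
    exact D0.modEq_of_pow kd' hz τ


end

end Pool.Agent.Q269.OL
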